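import Mathlib

/-! Minkowski's theorem for the ellipsoid `∑ i, (N u) i ^ 2 < r ^ 2` and the lattice `ℤ³`. -/

namespace Pool.H21.TS

open MeasureTheory Measure Module

lemma volume_sqball (r : ℝ) (hr : 0 < r) :
    volume {w : Fin 3 → ℝ | ∑ i, w i ^ 2 < r ^ 2} =
      ENNReal.ofReal r ^ 3 * ENNReal.ofReal (Real.pi * 4 / 3) := by
  have h1 : volume (Metric.ball (0 : EuclideanSpace ℝ (Fin 3)) r) =
      ENNReal.ofReal r ^ 3 * ENNReal.ofReal (Real.pi * 4 / 3) := by
    simp
  rw [← h1]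
  have h2 : Metric.ball (0 : EuclideanSpace ℝ (Fin 3)) r =
      (fun x : EuclideanSpace ℝ (Fin 3) => (WithLp.ofLp x)) ⁻¹'
        {w : Fin 3 → ℝ | ∑ i, w i ^ 2 < r ^ 2} := by
    ext x
    simp only [Metric.mem_ball, dist_zero_right, Set.mem_preimage, Set.mem_setOf_eq]
    rw [EuclideanSpace.norm_eq, Real.sqrt_lt' hr]
    simp
  rw [h2]
  rw [(PiLp.volume_preserving_ofLp (Fin 3)).measure_preimage]
  apply MeasurableSet.nullMeasurableSet
  apply measurableSet_lt <;> fun_prop

/-- Minkowski for an ellipsoid: a nonzero integer vector of small norm. -/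
theorem exists_small (N : Matrix (Fin 3) (Fin 3) ℝ) (hN : N.det ≠ 0) (r : ℝ) (hr : 0 < r)
    (h : |N.det| * 8 < r ^ 3 * (Real.pi * 4 / 3)) :
    ∃ v : Fin 3 → ℤ, v ≠ 0 ∧ ∑ i, (N.mulVec (fun j => (v j : ℝ)) i) ^ 2 < r ^ 2 := by
  classical
  set b := Pi.basisFun ℝ (Fin 3)
  set s : Set (Fin 3 → ℝ) := (Matrix.toLin' N) ⁻¹' {w : Fin 3 → ℝ | ∑ i, w i ^ 2 < r ^ 2} with hs
  have hdet : LinearMap.det (Matrix.toLin' N) ≠ 0 := by
    rw [LinearMap.det_toLin']; exact hN
  have hvol : volume s = ENNReal.ofReal |(N.det)⁻¹| *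
      (ENNReal.ofReal r ^ 3 * ENNReal.ofReal (Real.pi * 4 / 3)) := by
    rw [hs, addHaar_preimage_linearMap volume hdet, volume_sqball r hr, LinearMap.det_toLin']
  have hfund := ZSpan.isAddFundamentalDomain' b (volume : Measure (Fin 3 → ℝ))
  have hF : volume (ZSpan.fundamentalDomain b) = 1 := by
    rw [ZSpan.volume_fundamentalDomain]
    have : (Matrix.of (b : Fin 3 → Fin 3 → ℝ)) = 1 := by
      ext i j
      simp [b, Pi.single_apply, Matrix.one_apply, eq_comm]
    rw [this]; simp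
  have hsymm : ∀ x ∈ s, -x ∈ s := by
    intro x hx
    simp only [hs, Set.mem_preimage, Set.mem_setOf_eq, map_neg, Pi.neg_apply, neg_sq] at hx ⊢
    exact hx
  have hconv : Convex ℝ s := by
    apply Convex.linear_preimage
    have : {w : Fin 3 → ℝ | ∑ i, w i ^ 2 < r ^ 2} =
        (WithLp.linearEquiv 2 ℝ (Fin 3 → ℝ)).symm ⁻¹' (Metric.ball (0 : EuclideanSpace ℝ (Fin 3)) r) := by
      ext x
      simp only [Metric.mem_ball, dist_zero_right, Set.mem_preimage, Set.mem_setOf_eq]
      rw [EuclideanSpace.norm_eq, Real.sqrt_lt' hr]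
      simp
    rw [this]
    exact (convex_ball _ _).linear_preimage (WithLp.linearEquiv 2 ℝ (Fin 3 → ℝ)).symm.toLinearMap
  have hlt : volume (ZSpan.fundamentalDomain b) * 2 ^ finrank ℝ (Fin 3 → ℝ) < volume s := by
    rw [hF, hvol, one_mul]
    have e1 : (2 : ENNReal) ^ finrank ℝ (Fin 3 → ℝ) = ENNReal.ofReal 8 := by
      simp only [finrank_fintype_fun_eq_card, Fintype.card_fin]
      rw [show (8 : ℝ) = 2 ^ 3 by norm_num, ENNReal.ofReal_pow (by norm_num)]
      simp
    rw [e1, ← ENNReal.ofReal_pow hr.le, ← ENNReal.ofReal_mul (by positivity),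
      ← ENNReal.ofReal_mul (by positivity)]
    apply (ENNReal.ofReal_lt_ofReal_iff (by
      have : 0 < |(N.det)⁻¹| := abs_pos.mpr (inv_ne_zero hN)
      positivity)).mpr
    rw [abs_inv]
    have : 0 < |N.det| := abs_pos.mpr hN
    rw [inv_mul_eq_div, lt_div_iff₀ this]
    linarith
  haveI : Countable (Submodule.span ℤ (Set.range b)).toAddSubgroup := by
    show Countable (Submodule.span ℤ (Set.range b))
    infer_instance
  obtain ⟨x, hx0, hx⟩ := exists_ne_zero_mem_lattice_of_measure_mul_two_pow_lt_measure hfund hsymm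
    hconv hlt
  have hmem : (x : Fin 3 → ℝ) ∈ Submodule.span ℤ (Set.range b) := x.2
  rw [Basis.mem_span_iff_repr_mem] at hmem
  choose v hv using hmem
  refine ⟨v, ?_, ?_⟩
  · rintro rfl
    apply hx0
    ext i
    have := hv i
    simp [b] at this
    simp [← this]
  · have hxv : (x : Fin 3 → ℝ) = fun j => (v j : ℝ) := by
      funext i
      have := hv i
      simp [b] at this
      simp [← this]
    rw [← hxv]
    simpa [hs] using hx

end Pool.H21.TS
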