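import Mathlib
import Pool.Agent.H21.TS.Mink

/-! Every `m ≡ 3 mod 8` is a sum of three squares (Ankeny's proof). -/

namespace Pool.H21.TS

open scoped NumberTheorySymbols

/-- The auxiliary prime. -/
theorem exists_aux_prime (m : ℕ) (hm : m % 8 = 3) :
    ∃ q : ℕ, q.Prime ∧ q % 4 = 1 ∧ (m : ℤ) ∣ 2 * q + 1 := by
  have hm0 : (4 * m : ℕ) ≠ 0 := by omega
  have hcop : IsCoprime (((m : ℤ) - 1) / 2) ((4 * m : ℕ) : ℤ) := by
    obtain ⟨k, hk⟩ : ∃ k : ℤ, (m : ℤ) = 8 * k + 3 := ⟨m / 8, by omega⟩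
    have h1 : ((m : ℤ) - 1) / 2 = 4 * k + 1 := by omega
    rw [h1]
    push_cast
    rw [hk]
    -- gcd (4k+1, 4(8k+3)) = 1 : 4k+1 coprime to 4 and to 8k+3 = 2(4k+1)+1
    apply IsCoprime.mul_right
    · exact ⟨1, -k, by ring⟩
    · exact ⟨-2, 1, by ring⟩
  obtain ⟨q, -, hq, hmod⟩ := Nat.forall_exists_prime_gt_and_zmodEq 0 hm0 hcop
  refine ⟨q, hq, ?_, ?_⟩
  · have h4 : (q : ℤ) ≡ ((m : ℤ) - 1) / 2 [ZMOD 4] := by
      apply Int.ModEq.of_dvd _ hmod
      push_cast; exact Dvd.intro _ rfl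
    have : (q : ℤ) % 4 = 1 := by
      rw [h4]; omega
    omega
  · have h4 : (q : ℤ) ≡ ((m : ℤ) - 1) / 2 [ZMOD m] := by
      apply Int.ModEq.of_dvd _ hmod
      push_cast; exact Dvd.intro_left _ rfl
    have h5 := h4.dvd
    have h6 : ((m : ℤ) - 1) / 2 * 2 = m - 1 := by omega
    have h7 : (2 * (q : ℤ) + 1) = m - 2 * (((m : ℤ) - 1) / 2 - q) := by linarith
    rw [h7]
    exact dvd_sub (dvd_refl _) (h5.mul_left 2)

/-- `-m` is a square modulo the auxiliary prime. -/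
theorem neg_isSquare (m q : ℕ) (hm : m % 8 = 3) (hq : q.Prime) (hq4 : q % 4 = 1)
    (hd : (m : ℤ) ∣ 2 * q + 1) : ∃ b : ℤ, (q : ℤ) ∣ b ^ 2 + m := by
  have : Fact q.Prime := ⟨hq⟩
  have hmodd : Odd m := Nat.odd_iff.mpr (by omega)
  have h1 : J((-2 * (q : ℤ)) | m) = 1 := by
    have : J((-2 * (q : ℤ)) | m) = J(1 | m) := by
      apply jacobiSym.mod_left'
      apply Int.ModEq.symm
      apply Int.modEq_of_dvd
      have : -2 * (q : ℤ) - 1 = -(2 * q + 1) := by ring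
      rw [this]; exact (dvd_neg).mpr hd
    rw [this, jacobiSym.one_left]
  have h2 : J(-2 | m) = 1 := by
    rw [jacobiSym.at_neg_two hmodd, ZMod.χ₈'_nat_eq_if_mod_eight]
    simp [hm]; omega
  rw [jacobiSym.mul_left, h2, one_mul] at h1
  have h3 : J((m : ℤ) | q) = 1 := by
    rw [← jacobiSym.quadratic_reciprocity_one_mod_four hq4 hmodd]; exact h1
  have h4 : legendreSym q (-(m : ℤ)) = 1 := by
    rw [jacobiSym.legendreSym.to_jacobiSym]
    have : (-(m : ℤ)) = -1 * m := by ring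
    rw [this, jacobiSym.mul_left, h3, mul_one, jacobiSym.at_neg_one (Nat.odd_iff.mpr (by omega))]
    rw [ZMod.χ₄_nat_eq_if_mod_four]
    simp [hq4]; omega
  have h0 : ((-(m : ℤ) : ℤ) : ZMod q) ≠ 0 := by
    intro h
    have : legendreSym q (-(m : ℤ)) = 0 := (legendreSym.eq_zero_iff q _).mpr h
    omega
  obtain ⟨b, hb⟩ := (legendreSym.eq_one_iff q h0).mp h4
  refine ⟨(b.val : ℤ), ?_⟩
  rw [← ZMod.intCast_zmod_eq_zero_iff_dvd]
  push_cast
  rw [ZMod.natCast_zmod_val, pow_two, ← hb]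
  push_cast
  ring

/-- Descent: if `-d` is not a square mod `p`, the exponent of `p` in `X²+dY²` is even. -/
theorem even_val (p : ℕ) (hp : p.Prime) (d : ℤ) (hd : ∀ s : ℤ, ¬ (p : ℤ) ∣ s ^ 2 + d) :
    ∀ (n : ℕ), n ≠ 0 → ∀ X Y : ℤ, (n : ℤ) = X ^ 2 + d * Y ^ 2 → Even (padicValNat p n) := by
  have : Fact p.Prime := ⟨hp⟩
  have hpZ : Prime (p : ℤ) := Nat.prime_iff_prime_int.mp hp
  intro n
  induction n using Nat.strong_induction_on with
  | _ n ih =>
  intro hn X Y hXY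
  by_cases hpn : p ∣ n
  · have hpn' : (p : ℤ) ∣ X ^ 2 + d * Y ^ 2 := by
      rw [← hXY]; exact_mod_cast hpn
    have hY : (p : ℤ) ∣ Y := by
      by_contra hY
      -- invert Y mod p
      have hcop : IsCoprime (p : ℤ) Y := (Prime.coprime_iff_not_dvd hpZ).mpr hY
      obtain ⟨u, v, huv⟩ := hcop
      apply hd (X * v)
      have h1 : (p : ℤ) ∣ (X ^ 2 + d * Y ^ 2) * v ^ 2 := hpn'.mul_right _
      have h2 : (X * v) ^ 2 + d = (X ^ 2 + d * Y ^ 2) * v ^ 2 + d * (1 - (v * Y) ^ 2) := by ring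
      rw [h2]
      apply dvd_add h1
      have h3 : (1 : ℤ) - (v * Y) ^ 2 = (1 - v * Y) * (1 + v * Y) := by ring
      rw [h3]
      have h4 : (1 : ℤ) - v * Y = p * u := by linarith
      rw [h4]
      exact ((Dvd.intro u rfl).mul_right _).mul_left _
    have hX : (p : ℤ) ∣ X := by
      have h1 : (p : ℤ) ∣ X ^ 2 := by
        have h2 : (p : ℤ) ∣ d * Y ^ 2 := (hY.pow (by norm_num)).mul_left _
        exact (dvd_add_left h2).mp hpn'
      exact hpZ.dvd_of_dvd_pow h1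
    obtain ⟨X', rfl⟩ := hX
    obtain ⟨Y', rfl⟩ := hY
    have h5 : (n : ℤ) = p ^ 2 * (X' ^ 2 + d * Y' ^ 2) := by rw [hXY]; ring
    have hppos : (0 : ℤ) < p ^ 2 := by have := hp.pos; positivity
    have hnonneg : 0 ≤ X' ^ 2 + d * Y' ^ 2 := by
      by_contra hneg
      push Not at hneg
      have : (n : ℤ) < 0 := by rw [h5]; exact mul_neg_of_pos_of_neg hppos hneg
      omega
    obtain ⟨n', hn'⟩ := Int.eq_ofNat_of_zero_le hnonneg
    have h6 : n = p ^ 2 * n' := by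
      have : (n : ℤ) = ((p ^ 2 * n' : ℕ) : ℤ) := by rw [h5, hn']; push_cast; ring
      exact_mod_cast this
    have hn'0 : n' ≠ 0 := by rintro rfl; apply hn; rw [h6]; ring
    have hlt : n' < n := by
      rw [h6]
      have := hp.two_le
      nlinarith [Nat.pos_of_ne_zero hn'0]
    have hev := ih n' hlt hn'0 X' Y' hn'.symm
    rw [h6, padicValNat.mul (pow_ne_zero _ hp.ne_zero) hn'0, padicValNat.prime_pow]
    exact Even.add (by decide) hev
  · rw [padicValNat.eq_zero_of_not_dvd hpn]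
    exact Even.zero


set_option maxHeartbeats 4000000 in
/-- The Minkowski step: `R² + 2v = m` with `v = qx² + bxy + hy²`, `R = 2qx + by + mz`. -/
theorem mink_step (m q : ℕ) (hm : 0 < m) (hq : 0 < q) (b h : ℤ)
    (hbh : b ^ 2 + m = 4 * q * h) (hd : (m : ℤ) ∣ 2 * q + 1) :
    ∃ x y z : ℤ, (2 * q * x + b * y + m * z) ^ 2 + 2 * (q * x ^ 2 + b * x * y + h * y ^ 2) = m ∧
      0 ≤ q * x ^ 2 + b * x * y + h * y ^ 2 := by
  have hmR : (0 : ℝ) < m := by exact_mod_cast hm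
  have hqR : (0 : ℝ) < q := by exact_mod_cast hq
  set s : ℝ := Real.sqrt (2 * q) with hs
  have hs0 : 0 < s := Real.sqrt_pos.mpr (by positivity)
  have hs2 : s ^ 2 = 2 * q := Real.sq_sqrt (by positivity)
  set t : ℝ := Real.sqrt m with ht
  have ht0 : 0 < t := Real.sqrt_pos.mpr hmR
  have ht2 : t ^ 2 = m := Real.sq_sqrt hmR.le
  let N : Matrix (Fin 3) (Fin 3) ℝ := !![2 * q, b, m; s, b / s, 0; 0, t / s, 0]
  have hdet : N.det = m * t := by
    rw [Matrix.det_fin_three]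
    simp [N]
    field_simp
  have hr : 0 < Real.sqrt (2 * m) := Real.sqrt_pos.mpr (by positivity)
  have hr2 : Real.sqrt (2 * m) ^ 2 = 2 * m := Real.sq_sqrt (by positivity)
  have hr3 : Real.sqrt (2 * m) = Real.sqrt 2 * t := by
    rw [ht, Real.sqrt_mul (by norm_num)]
  have hsq2 : (1.41 : ℝ) < Real.sqrt 2 := by
    rw [Real.lt_sqrt (by norm_num)]; norm_num
  have hlt : |N.det| * 8 < Real.sqrt (2 * m) ^ 3 * (Real.pi * 4 / 3) := by
    rw [hdet, abs_of_pos (by positivity)]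
    have : Real.sqrt (2 * m) ^ 3 = 2 * m * (Real.sqrt 2 * t) := by
      rw [pow_succ, hr2, hr3]
    rw [this]
    have h1 : (8 : ℝ) < 2 * Real.sqrt 2 * (Real.pi * 4 / 3) := by
      nlinarith [Real.pi_gt_three, hsq2]
    have h2 : 0 < (m : ℝ) * t := by positivity
    nlinarith [mul_lt_mul_of_pos_left h1 h2]
  obtain ⟨v, hv0, hv⟩ := exists_small N (by rw [hdet]; positivity) _ hr hlt
  set x := v 0
  set y := v 1
  set z := v 2
  rw [hr2] at hv
  simp only [Fin.sum_univ_three, Matrix.mulVec, dotProduct, N, Matrix.cons_val_zero,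
    Matrix.cons_val_one, Matrix.cons_val, Matrix.of_apply] at hv
  have hbhR : (b : ℝ) ^ 2 + m = 4 * q * h := by exact_mod_cast hbh
  have e1 : (s * (x : ℝ) + b / s * y + 0 * z) ^ 2 + (0 * (x : ℝ) + t / s * y + 0 * z) ^ 2
      = 2 * (q * x ^ 2 + b * x * y + h * y ^ 2) := by
    have : (s * (x : ℝ) + b / s * y + 0 * z) ^ 2 + (0 * (x : ℝ) + t / s * y + 0 * z) ^ 2
      = s ^ 2 * x ^ 2 + 2 * b * x * y + (b ^ 2 + t ^ 2) / s ^ 2 * y ^ 2 := by
      field_simp
      ring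
    rw [this, hs2, ht2, hbhR]
    field_simp
    ring
  have hv' : (2 * (q : ℝ) * x + b * y + m * z) ^ 2 +
      2 * (q * x ^ 2 + b * x * y + h * y ^ 2) < 2 * m := by
    rw [← e1]
    simp only [x, y, z]
    linarith [hv]
  have hv'' : (2 * (q : ℤ) * x + b * y + m * z) ^ 2 +
      2 * (q * x ^ 2 + b * x * y + h * y ^ 2) < 2 * m := by exact_mod_cast hv'
  set V : ℤ := q * x ^ 2 + b * x * y + h * y ^ 2 with hV
  set X : ℤ := 2 * q * x + b * y with hX
  have key : 4 * q * V = X ^ 2 + m * y ^ 2 := by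
    rw [hV, hX]; linear_combination (y ^ 2) * hbh.symm
  have hqZ : (0 : ℤ) < q := by exact_mod_cast hq
  have hmZ : (0 : ℤ) < m := by exact_mod_cast hm
  have hVnn : 0 ≤ V := by
    by_contra hneg
    push Not at hneg
    have : 4 * (q : ℤ) * V < 0 := by nlinarith
    nlinarith [sq_nonneg X, sq_nonneg y]
  refine ⟨x, y, z, ?_, hVnn⟩
  -- divisibility
  obtain ⟨e, he⟩ := hd
  have hdvd : (m : ℤ) ∣ (X + m * z) ^ 2 + 2 * V := by
    have : (X + m * z) ^ 2 + 2 * V = (2 * q + 1) * (2 * V) + m * (2 * X * z + m * z ^ 2 - y ^ 2) := by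
      linear_combination -key
    rw [this, he]
    exact dvd_add ((Dvd.intro e rfl).mul_right _) (Dvd.intro _ rfl)
  obtain ⟨k, hk⟩ := hdvd
  have hpos : 0 < (X + m * z) ^ 2 + 2 * V := by
    by_contra hle
    push Not at hle
    have hV0 : V = 0 := by nlinarith [sq_nonneg (X + m * z)]
    have hR0 : X + m * z = 0 := by
      have : (X + m * z) ^ 2 = 0 := by nlinarith [sq_nonneg (X + m * z)]
      exact pow_eq_zero_iff (two_ne_zero) |>.mp this
    rw [hV0] at key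
    have hy0 : y = 0 := by
      have : y ^ 2 = 0 := by nlinarith [sq_nonneg X, sq_nonneg y]
      exact pow_eq_zero_iff (two_ne_zero) |>.mp this
    have hX0 : X = 0 := by
      have : X ^ 2 = 0 := by nlinarith [sq_nonneg X, sq_nonneg y]
      exact pow_eq_zero_iff (two_ne_zero) |>.mp this
    have hx0 : x = 0 := by
      rw [hX, hy0] at hX0
      have : 2 * (q : ℤ) * x = 0 := by linarith
      rcases mul_eq_zero.mp this with h' | h'
      · omega
      · exact h'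
    have hz0 : z = 0 := by
      rw [hX0] at hR0
      have : (m : ℤ) * z = 0 := by linarith
      rcases mul_eq_zero.mp this with h' | h'
      · omega
      · exact h'
    apply hv0
    funext i
    fin_cases i
    · exact hx0
    · exact hy0
    · exact hz0
  have hlt2 : (X + m * z) ^ 2 + 2 * V < 2 * m := by
    have : (2 * (q : ℤ) * x + b * y + m * z) = X + m * z := by rw [hX]
    rw [← this]; exact hv''
  have hk1 : k = 1 := by
    rw [hk] at hpos hlt2
    have h1 : 0 < k := by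
      by_contra hle; push Not at hle; nlinarith
    have h2 : k < 2 := by
      by_contra hle; push Not at hle; nlinarith
    omega
  rw [hk1, mul_one] at hk
  rw [← hX]
  exact hk


/-- The squarefree case. -/
theorem three_sq_squarefree (m : ℕ) (hm : m % 8 = 3) (hsq : Squarefree m) :
    ∃ x y z : ℤ, (m : ℤ) = x ^ 2 + y ^ 2 + z ^ 2 := by
  obtain ⟨q, hq, hq4, hd⟩ := exists_aux_prime m hm
  obtain ⟨b₀, hb₀⟩ := neg_isSquare m q hm hq hq4 hd
  -- make b odd
  obtain ⟨b, hbodd, hb⟩ : ∃ b : ℤ, b % 2 = 1 ∧ (q : ℤ) ∣ b ^ 2 + m := by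
    rcases Int.emod_two_eq_zero_or_one b₀ with h | h
    · refine ⟨b₀ + q, by omega, ?_⟩
      have : (b₀ + q) ^ 2 + m = (b₀ ^ 2 + m) + q * (2 * b₀ + q) := by ring
      rw [this]
      exact dvd_add hb₀ (Dvd.intro _ rfl)
    · exact ⟨b₀, h, hb₀⟩
  have h4 : (4 : ℤ) ∣ b ^ 2 + m := by
    obtain ⟨k, hk⟩ : ∃ k : ℤ, b = 2 * k + 1 := ⟨b / 2, by omega⟩
    obtain ⟨l, hl⟩ : ∃ l : ℤ, (m : ℤ) = 8 * l + 3 := ⟨m / 8, by omega⟩
    rw [hk, hl]
    exact ⟨k ^ 2 + k + 2 * l + 1, by ring⟩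
  have h4q : (4 * q : ℤ) ∣ b ^ 2 + m := by
    have hcop : IsCoprime (4 : ℤ) q := by
      obtain ⟨k, hk⟩ : ∃ k : ℤ, (q : ℤ) = 4 * k + 1 := ⟨q / 4, by omega⟩
      exact ⟨-k, 1, by rw [hk]; ring⟩
    exact hcop.mul_dvd h4 hb
  obtain ⟨h, hh⟩ := h4q
  obtain ⟨x, y, z, hxyz, hV⟩ := mink_step m q (by omega) hq.pos b h hh hd
  set V : ℤ := q * x ^ 2 + b * x * y + h * y ^ 2 with hVdef
  set R : ℤ := 2 * q * x + b * y + m * z with hR
  obtain ⟨W, hW⟩ := Int.eq_ofNat_of_zero_le (show 0 ≤ 2 * V by linarith)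
  have hWm : (m : ℤ) = R ^ 2 + W := by rw [← hW]; exact hxyz.symm
  have hkey : (((2 * q * W : ℕ)) : ℤ) = (2 * q * x + b * y) ^ 2 + m * y ^ 2 := by
    push_cast
    rw [← hW, hVdef]
    linear_combination (y ^ 2) * hh.symm
  -- W is a sum of two squares
  have hmain : ∃ u v : ℕ, W = u ^ 2 + v ^ 2 := by
    rw [Nat.eq_sq_add_sq_iff]
    intro p hpW hp4
    have hp := Nat.prime_of_mem_primeFactors hpW
    have hpd := Nat.dvd_of_mem_primeFactors hpW
    have hW0 : W ≠ 0 := by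
      rintro rfl; simp at hpW
    have : Fact p.Prime := ⟨hp⟩
    have hpZ : Prime (p : ℤ) := Nat.prime_iff_prime_int.mp hp
    have hpdZ : (p : ℤ) ∣ W := by exact_mod_cast hpd
    -- -1 is not a square mod p
    have hneg1 : ∀ s : ℤ, ¬ (p : ℤ) ∣ s ^ 2 + 1 := by
      intro s hs
      have h1 : IsSquare (-1 : ZMod p) := by
        refine ⟨(s : ZMod p), ?_⟩
        have h2 := (ZMod.intCast_zmod_eq_zero_iff_dvd (s ^ 2 + 1) p).mpr hs
        push_cast at h2
        linear_combination -h2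
      exact (ZMod.exists_sq_eq_neg_one_iff.mp h1) hp4
    by_cases hpm : p ∣ m
    · exfalso
      -- p ∣ R
      have hpmZ : (p : ℤ) ∣ m := by exact_mod_cast hpm
      have hpR : (p : ℤ) ∣ R := by
        have : (p : ℤ) ∣ R ^ 2 := by
          have h1 : R ^ 2 = m - W := by linarith
          rw [h1]; exact dvd_sub hpmZ hpdZ
        exact hpZ.dvd_of_dvd_pow this
      have hpX : (p : ℤ) ∣ 2 * q * x + b * y := by
        have : (p : ℤ) ∣ (2 * q * x + b * y) ^ 2 := by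
          have h1 : (2 * q * x + b * y) ^ 2 = ((2 * q * W : ℕ) : ℤ) - m * y ^ 2 := by
            rw [hkey]; ring
          rw [h1]
          apply dvd_sub
          · push_cast; exact hpdZ.mul_left _
          · exact hpmZ.mul_right _
        exact hpZ.dvd_of_dvd_pow this
      obtain ⟨m', hm'⟩ := hpmZ
      obtain ⟨R', hR'⟩ := hpR
      obtain ⟨X', hX'⟩ := hpX
      have hpne : (p : ℤ) ≠ 0 := by exact_mod_cast hp.ne_zero
      have hm'p : ¬ (p : ℤ) ∣ m' := by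
        rintro ⟨c, hc⟩
        have : (p * p : ℕ) ∣ m := by
          have h1 : ((p * p : ℕ) : ℤ) ∣ m := by
            rw [hm', hc]; push_cast; exact ⟨c, by ring⟩
          exact_mod_cast h1
        have := hsq p this
        exact hp.one_lt.ne' (Nat.isUnit_iff.mp this)
      have hW' : (W : ℤ) = p * (m' - p * R' ^ 2) := by
        have : (W : ℤ) = m - R ^ 2 := by linarith
        rw [this, hm', hR']; ring
      have h5 : 2 * q * (m' - p * R' ^ 2) = p * X' ^ 2 + m' * y ^ 2 := by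
        have h6 : (p : ℤ) * (2 * q * (m' - p * R' ^ 2)) = p * (p * X' ^ 2 + m' * y ^ 2) := by
          have h7 := hkey
          push_cast at h7
          rw [hW', hX', hm'] at h7
          linear_combination h7
        exact mul_left_cancel₀ hpne h6
      have h6 : (p : ℤ) ∣ m' * (y ^ 2 - 2 * q) := by
        refine ⟨-(2 * q * R' ^ 2) - X' ^ 2, ?_⟩
        linear_combination -h5
      have h7 : (p : ℤ) ∣ y ^ 2 - 2 * q := (hpZ.dvd_or_dvd h6).resolve_left hm'p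
      have h8 : (p : ℤ) ∣ 2 * q + 1 := by
        refine dvd_trans ?_ hd
        rw [hm']; exact Dvd.intro _ rfl
      apply hneg1 y
      have : y ^ 2 + 1 = (y ^ 2 - 2 * q) + (2 * q + 1) := by ring
      rw [this]
      exact dvd_add h7 h8
    · -- -m is not a square mod p
      have hpmZ : ¬ (p : ℤ) ∣ m := by exact_mod_cast hpm
      have hnm : ∀ s : ℤ, ¬ (p : ℤ) ∣ s ^ 2 + m := by
        intro s hs
        -- m ≡ R² so s² ≡ -R²
        have hRp : ¬ (p : ℤ) ∣ R := by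
          intro hR1
          apply hpmZ
          rw [hWm]
          exact dvd_add (hR1.pow (by norm_num)) hpdZ
        have hcop : IsCoprime (p : ℤ) R := (Prime.coprime_iff_not_dvd hpZ).mpr hRp
        obtain ⟨u, v, huv⟩ := hcop
        apply hneg1 (s * v)
        have h1 : (p : ℤ) ∣ s ^ 2 + R ^ 2 := by
          have : s ^ 2 + R ^ 2 = (s ^ 2 + m) - W := by rw [hWm]; ring
          rw [this]; exact dvd_sub hs hpdZ
        have h2 : (s * v) ^ 2 + 1 = (s ^ 2 + R ^ 2) * v ^ 2 + (1 - v * R) * (1 + v * R) := by ring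
        rw [h2]
        apply dvd_add (h1.mul_right _)
        have h3 : (1 : ℤ) - v * R = p * u := by linarith
        rw [h3]
        exact (Dvd.intro u rfl).mul_right _
      have hev := even_val p hp m hnm (2 * q * W) (by
        have := hq.pos
        positivity) (2 * q * x + b * y) y hkey
      have h2q : ¬ p ∣ 2 * q := by
        intro h1
        rcases (Nat.Prime.dvd_mul hp).mp h1 with h2 | h2
        · have := (Nat.prime_dvd_prime_iff_eq hp Nat.prime_two).mp h2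
          omega
        · have := (Nat.prime_dvd_prime_iff_eq hp hq).mp h2
          omega
      rw [padicValNat.mul (by have := hq.pos; omega) hW0,
        padicValNat.eq_zero_of_not_dvd h2q, zero_add] at hev
      exact hev
  obtain ⟨u, v, huv⟩ := hmain
  refine ⟨R, u, v, ?_⟩
  rw [hWm, huv]; push_cast; ring

/-- Every `m ≡ 3 mod 8` is a sum of three squares. -/
theorem three_sq (m : ℕ) (hm : m % 8 = 3) :
    ∃ x y z : ℤ, (m : ℤ) = x ^ 2 + y ^ 2 + z ^ 2 := by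
  obtain ⟨a, b, ha, hb, hab, hsq⟩ := Nat.sq_mul_squarefree_of_pos (n := m) (by omega)
  have hbodd : b % 2 = 1 := by
    rcases Nat.mod_two_eq_zero_or_one b with h | h
    · exfalso
      obtain ⟨c, rfl⟩ : ∃ c, b = 2 * c := ⟨b / 2, by omega⟩
      have : m = 2 * (2 * c ^ 2 * a) := by rw [← hab]; ring
      omega
    · exact h
  have ha8 : a % 8 = 3 := by
    obtain ⟨c, rfl⟩ : ∃ c, b = 2 * c + 1 := ⟨b / 2, by omega⟩
    obtain ⟨d, hd⟩ : ∃ d, c * (c + 1) = 2 * d := by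
      obtain ⟨d, hd⟩ := Nat.even_mul_succ_self c
      exact ⟨d, by omega⟩
    have : (2 * c + 1) ^ 2 = 8 * d + 1 := by
      have : (2 * c + 1) ^ 2 = 4 * (c * (c + 1)) + 1 := by ring
      omega
    rw [this] at hab
    have h2 : m = 8 * (d * a) + a := by rw [← hab]; ring
    omega
  obtain ⟨x, y, z, hxyz⟩ := three_sq_squarefree a ha8 hsq
  refine ⟨b * x, b * y, b * z, ?_⟩
  have : (m : ℤ) = b ^ 2 * a := by exact_mod_cast hab.symm
  rw [this, hxyz]; ring

set_option maxHeartbeats 4000000 in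
/-- Cauchy's lemma. -/
theorem cauchy_lemma (a b : ℕ) (ha : a % 2 = 1) (hb : b % 2 = 1) (h1 : b ^ 2 < 4 * a)
    (h2 : 3 * a < b ^ 2 + 2 * b + 4) :
    ∃ s t u v : ℕ, a = s ^ 2 + t ^ 2 + u ^ 2 + v ^ 2 ∧ b = s + t + u + v := by
  have hmod : (4 * a - b ^ 2) % 8 = 3 := by
    obtain ⟨c, rfl⟩ : ∃ c, b = 2 * c + 1 := ⟨b / 2, by omega⟩
    obtain ⟨e, rfl⟩ : ∃ e, a = 2 * e + 1 := ⟨a / 2, by omega⟩
    obtain ⟨d, hd⟩ : ∃ d, c * (c + 1) = 2 * d := by
      obtain ⟨d, hd⟩ := Nat.even_mul_succ_self c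
      exact ⟨d, by omega⟩
    have : (2 * c + 1) ^ 2 = 8 * d + 1 := by
      have : (2 * c + 1) ^ 2 = 4 * (c * (c + 1)) + 1 := by ring
      omega
    omega
  obtain ⟨x₀, y₀, z₀, hxyz⟩ := three_sq _ hmod
  have hsub : (((4 * a - b ^ 2 : ℕ)) : ℤ) = 4 * a - b ^ 2 := by
    push_cast [Nat.cast_sub h1.le]; ring
  rw [hsub] at hxyz
  -- all odd
  have hodd : x₀ % 2 = 1 ∧ y₀ % 2 = 1 ∧ z₀ % 2 = 1 := by
    have key : ∀ w : ℤ, (w ^ 2 % 8 = 0 ∨ w ^ 2 % 8 = 4) ∧ w % 2 = 0 ∨ w ^ 2 % 8 = 1 ∧ w % 2 = 1 := by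
      intro w
      rcases Int.emod_two_eq_zero_or_one w with h | h
      · left
        refine ⟨?_, h⟩
        obtain ⟨k, rfl⟩ : ∃ k, w = 2 * k := ⟨w / 2, by omega⟩
        have e : (2 * k) ^ 2 = 4 * (k * k) := by ring
        rw [e]; omega
      · right
        refine ⟨?_, h⟩
        obtain ⟨k, rfl⟩ : ∃ k, w = 2 * k + 1 := ⟨w / 2, by omega⟩
        obtain ⟨d, hd⟩ := Int.even_mul_succ_self k
        have e : (2 * k + 1) ^ 2 = 4 * (k * (k + 1)) + 1 := by ring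
        rw [e, hd]; omega
    have hb2 : ((b : ℤ) ^ 2) % 8 = 1 := by
      rcases key b with h | h
      · omega
      · exact h.1
    have ha2 : ((a : ℤ)) % 2 = 1 := by omega
    rcases key x₀ with ⟨h, h'⟩ | ⟨h, h'⟩ <;> rcases key y₀ with ⟨k, k'⟩ | ⟨k, k'⟩ <;>
      rcases key z₀ with ⟨l, l'⟩ | ⟨l, l'⟩ <;> omega
  -- choose absolute values
  obtain ⟨x, y, z, hx, hy, hz, hxyz', hxo, hyo, hzo⟩ : ∃ x y z : ℤ, 0 ≤ x ∧ 0 ≤ y ∧ 0 ≤ z ∧
      4 * (a : ℤ) - b ^ 2 = x ^ 2 + y ^ 2 + z ^ 2 ∧ x % 2 = 1 ∧ y % 2 = 1 ∧ z % 2 = 1 := by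
    refine ⟨|x₀|, |y₀|, |z₀|, abs_nonneg _, abs_nonneg _, abs_nonneg _, ?_, ?_, ?_, ?_⟩
    · rw [sq_abs, sq_abs, sq_abs]; exact hxyz
    · rcases abs_choice x₀ with h | h <;> rw [h] <;> omega
    · rcases abs_choice y₀ with h | h <;> rw [h] <;> omega
    · rcases abs_choice z₀ with h | h <;> rw [h] <;> omega
  have hsum : x + y + z < b + 4 := by
    have h3 : (x + y + z) ^ 2 ≤ 3 * (x ^ 2 + y ^ 2 + z ^ 2) := by
      nlinarith [sq_nonneg (x - y), sq_nonneg (y - z), sq_nonneg (x - z)]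
    have h4 : 3 * (x ^ 2 + y ^ 2 + z ^ 2) < ((b : ℤ) + 4) ^ 2 := by
      rw [← hxyz']
      have : 3 * (a : ℤ) < b ^ 2 + 2 * b + 4 := by exact_mod_cast h2
      nlinarith
    have h5 : (x + y + z) ^ 2 < ((b : ℤ) + 4) ^ 2 := lt_of_le_of_lt h3 h4
    exact lt_of_pow_lt_pow_left₀ 2 (by positivity) h5
  -- a version with signed z so that b + x + y + z ≡ 0 mod 4
  obtain ⟨w, hw, hwmod⟩ : ∃ w : ℤ, (w = z ∨ w = -z) ∧ ((b : ℤ) + x + y + w) % 4 = 0 := by
    by_cases h : ((b : ℤ) + x + y + z) % 4 = 0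
    · exact ⟨z, Or.inl rfl, h⟩
    · refine ⟨-z, Or.inr rfl, ?_⟩
      have : (b : ℤ) % 2 = 1 := by omega
      omega
  have hw2 : w ^ 2 = z ^ 2 := by rcases hw with rfl | rfl <;> ring
  have hwo : w % 2 = 1 := by rcases hw with rfl | rfl <;> omega
  obtain ⟨s, hs4⟩ : ∃ s : ℤ, 4 * s = b + x + y + w := ⟨((b : ℤ) + x + y + w) / 4, by omega⟩
  have hbo : (b : ℤ) % 2 = 1 := by omega
  -- t = (b+x)/2 - s, u = (b+y)/2 - s, v = (b+w)/2 - s
  obtain ⟨t, ht⟩ : ∃ t : ℤ, 2 * t = b + x - 2 * s := ⟨(b + x) / 2 - s, by omega⟩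
  obtain ⟨u, hu⟩ : ∃ u : ℤ, 2 * u = b + y - 2 * s := ⟨(b + y) / 2 - s, by omega⟩
  obtain ⟨v, hv⟩ : ∃ v : ℤ, 2 * v = b + w - 2 * s := ⟨(b + w) / 2 - s, by omega⟩
  have hwb : -z ≤ w ∧ w ≤ z := by rcases hw with rfl | rfl <;> constructor <;> omega
  have hs0 : 0 ≤ s := by omega
  have ht0 : 0 ≤ t := by omega
  have hu0 : 0 ≤ u := by omega
  have hv0 : 0 ≤ v := by omega
  have hsum1 : (b : ℤ) = s + t + u + v := by omega
  have hsq1 : (a : ℤ) = s ^ 2 + t ^ 2 + u ^ 2 + v ^ 2 := by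
    have hx' : x = 2 * t + 2 * s - b := by omega
    have hy' : y = 2 * u + 2 * s - b := by omega
    have hw' : w = 2 * v + 2 * s - b := by omega
    have h6 : 4 * (a : ℤ) = b ^ 2 + x ^ 2 + y ^ 2 + w ^ 2 := by rw [hw2]; linarith
    rw [hx', hy', hw', hsum1] at h6
    have h7 : (s + t + u + v) ^ 2 + (2 * t + 2 * s - (s + t + u + v)) ^ 2 +
        (2 * u + 2 * s - (s + t + u + v)) ^ 2 + (2 * v + 2 * s - (s + t + u + v)) ^ 2 =
        4 * (s ^ 2 + t ^ 2 + u ^ 2 + v ^ 2) := by ring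
    linarith [h6, h7]
  lift s to ℕ using hs0
  lift t to ℕ using ht0
  lift u to ℕ using hu0
  lift v to ℕ using hv0
  exact ⟨s, t, u, v, by exact_mod_cast hsq1, by exact_mod_cast hsum1⟩

end Pool.H21.TS
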