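import Mathlib
import Pool.Agent.H21.TS.ThreeSq

/-! Polygonal numbers of orders `m+1, …, 2m`: representability of finite index sets. -/

namespace Pool.H21.TS

/-- The `x`-th `k`-gonal number. -/
def polygonal (k x : ℕ) : ℕ := (k - 2) * x * (x - 1) / 2 + x

lemma polygonal_eq (k x : ℕ) : polygonal k x = (k - 2) * x.choose 2 + x := by
  unfold polygonal
  rw [Nat.choose_two_right, mul_assoc, Nat.mul_div_assoc]
  exact (Nat.even_mul_pred_self x).two_dvd

@[simp] lemma polygonal_zero (k : ℕ) : polygonal k 0 = 0 := by simp [polygonal_eq]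
@[simp] lemma polygonal_one (k : ℕ) : polygonal k 1 = 1 := by simp [polygonal_eq]
lemma polygonal_two (k : ℕ) (hk : 2 ≤ k) : polygonal k 2 = k := by
  simp [polygonal_eq]; omega

/-- `n` is a sum of polygonal numbers of the orders `m + i`, `i ∈ T`. -/
def RepS (m : ℕ) (T : Finset ℕ) (n : ℕ) : Prop :=
  ∃ x : ℕ → ℕ, n = ∑ i ∈ T, polygonal (m + i) (x i)

lemma RepS.zero (m : ℕ) (T : Finset ℕ) : RepS m T 0 := ⟨fun _ => 0, by simp⟩

lemma RepS.union {m : ℕ} {T U : Finset ℕ} (h : Disjoint T U) {a b : ℕ} (ha : RepS m T a)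
    (hb : RepS m U b) : RepS m (T ∪ U) (a + b) := by
  classical
  obtain ⟨x, rfl⟩ := ha
  obtain ⟨y, rfl⟩ := hb
  refine ⟨fun i => if i ∈ T then x i else y i, ?_⟩
  rw [Finset.sum_union h]
  congr 1
  · apply Finset.sum_congr rfl
    intro i hi; simp [hi]
  · apply Finset.sum_congr rfl
    intro i hi
    have : i ∉ T := fun hT => (Finset.disjoint_left.mp h) hT hi
    simp [this]

lemma RepS.mono {m : ℕ} {T U : Finset ℕ} (h : T ⊆ U) {a : ℕ} (ha : RepS m T a) : RepS m U a := by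
  classical
  have := ha.union (Finset.disjoint_sdiff (s := T) (t := U)) (RepS.zero m _)
  rwa [Finset.union_sdiff_of_subset h, add_zero] at this

lemma RepS.ones {m : ℕ} {T : Finset ℕ} {t : ℕ} (h : t ≤ T.card) : RepS m T t := by
  classical
  obtain ⟨U, hU, hc⟩ := Finset.exists_subset_card_eq h
  apply RepS.mono hU
  refine ⟨fun _ => 1, ?_⟩
  simp [hc]

lemma RepS.two {m i : ℕ} (h : 2 ≤ m + i) : RepS m {i} (m + i) :=
  ⟨fun _ => 2, by simp [polygonal_two _ h]⟩

/-- Two different indices `i, j`, one value `y`. -/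
lemma RepS.pair {m i j A : ℕ} (hij : i ≠ j) (hi : 2 ≤ m + i) (hj : 2 ≤ m + j)
    (hA : (m + i) + (m + j) = A + 4) (y : ℕ) :
    RepS m {i, j} (A * y.choose 2 + 2 * y) := by
  refine ⟨fun _ => y, ?_⟩
  rw [Finset.sum_pair hij, polygonal_eq, polygonal_eq]
  have : A = (m + i - 2) + (m + j - 2) := by omega
  rw [this]; ring

/-- The valid pairs `(c, b)` of Cauchy's lemma, with `a = b + 2c`. -/
def Valid (c b : ℕ) : Prop := b % 2 = 1 ∧ b ^ 2 < 4 * (b + 2 * c) ∧ 3 * (b + 2 * c) < b ^ 2 + 2 * b + 4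

lemma Valid.exists {c b : ℕ} (h : Valid c b) :
    ∃ s t u v : ℕ, s.choose 2 + t.choose 2 + u.choose 2 + v.choose 2 = c ∧ s + t + u + v = b := by
  obtain ⟨s, t, u, v, h1, h2⟩ := cauchy_lemma (b + 2 * c) b (by have := h.1; omega) h.1 h.2.1 h.2.2
  refine ⟨s, t, u, v, ?_, h2.symm⟩
  have key : ∀ x : ℕ, x ^ 2 = 2 * x.choose 2 + x := by
    intro x
    rw [Nat.choose_two_right]
    have h3 : 2 * (x * (x - 1) / 2) = x * (x - 1) :=
      Nat.mul_div_cancel' (Nat.even_mul_pred_self x).two_dvd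
    rw [h3]
    cases x with
    | zero => simp
    | succ n => simp; ring
  rw [key s, key t, key u, key v] at h1
  omega

/-- Step from `c` to `c + 1`. -/
lemma Valid.step {c b : ℕ} (h : Valid c b) : Valid (c + 1) b ∨ Valid (c + 1) (b + 2) := by
  obtain ⟨h0, h1, h2⟩ := h
  by_cases h3 : 3 * (b + 2 * (c + 1)) < b ^ 2 + 2 * b + 4
  · left
    exact ⟨h0, by nlinarith, h3⟩
  · right
    have hb : 1 ≤ b := by omega
    have e : (b + 2) ^ 2 = b ^ 2 + 4 * b + 4 := by ring
    refine ⟨by omega, ?_, ?_⟩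
    · rw [e]; nlinarith [sq_nonneg ((b : ℤ) - 2)]
    · rw [e]; omega

lemma valid_zero : Valid 0 1 := ⟨rfl, by norm_num, by norm_num⟩

/-- Every `n ≥ 2` is close to a value `A c + 2 b` with `(c, b)` valid. -/
lemma exists_valid (A : ℕ) (hA : 4 ≤ A) (n : ℕ) (hn : 2 ≤ n) :
    ∃ c b, Valid c b ∧ A * c + 2 * b ≤ n ∧ n < A * c + 2 * b + (A + 4) := by
  induction n using Nat.strong_induction_on with
  | _ n ih =>
  by_cases h : n < A + 6
  · exact ⟨0, 1, valid_zero, by omega, by omega⟩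
  · obtain ⟨c, b, hv, h1, h2⟩ := ih (n - A) (by omega) (by omega)
    rcases hv.step with hs | hs
    · refine ⟨c + 1, b, hs, ?_, ?_⟩
      · have : A * (c + 1) = A * c + A := by ring
        omega
      · have : A * (c + 1) = A * c + A := by ring
        omega
    · by_cases h3 : A * c + 2 * b + 4 ≤ n - A
      · refine ⟨c + 1, b + 2, hs, ?_, ?_⟩
        · have : A * (c + 1) = A * c + A := by ring
          omega
        · have : A * (c + 1) = A * c + A := by ring
          omega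
      · exact ⟨c, b, hv, by omega, by omega⟩

/-- Four disjoint symmetric pairs. -/
structure Pairs (m A : ℕ) (P : Finset ℕ) : Prop where
  ex : ∃ i₁ j₁ i₂ j₂ i₃ j₃ i₄ j₄ : ℕ, P = {i₁, j₁} ∪ ({i₂, j₂} ∪ ({i₃, j₃} ∪ {i₄, j₄})) ∧
    Disjoint ({i₁, j₁} : Finset ℕ) ({i₂, j₂} ∪ ({i₃, j₃} ∪ {i₄, j₄})) ∧
    Disjoint ({i₂, j₂} : Finset ℕ) ({i₃, j₃} ∪ {i₄, j₄}) ∧
    Disjoint ({i₃, j₃} : Finset ℕ) ({i₄, j₄}) ∧
    i₁ ≠ j₁ ∧ i₂ ≠ j₂ ∧ i₃ ≠ j₃ ∧ i₄ ≠ j₄ ∧
    (m + i₁) + (m + j₁) = A + 4 ∧ (m + i₂) + (m + j₂) = A + 4 ∧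
    (m + i₃) + (m + j₃) = A + 4 ∧ (m + i₄) + (m + j₄) = A + 4

lemma Pairs.rep {m A : ℕ} {P : Finset ℕ} (hP : Pairs m A P) (hm : 2 ≤ m) {c b : ℕ}
    (h : Valid c b) : RepS m P (A * c + 2 * b) := by
  obtain ⟨i₁, j₁, i₂, j₂, i₃, j₃, i₄, j₄, rfl, d1, d2, d3, n1, n2, n3, n4, s1, s2, s3, s4⟩ := hP.ex
  obtain ⟨s, t, u, v, hc, hb⟩ := h.exists
  have r1 := RepS.pair (m := m) n1 (by omega) (by omega) s1 s
  have r2 := RepS.pair (m := m) n2 (by omega) (by omega) s2 t
  have r3 := RepS.pair (m := m) n3 (by omega) (by omega) s3 u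
  have r4 := RepS.pair (m := m) n4 (by omega) (by omega) s4 v
  have r := r1.union d1 (r2.union d2 (r3.union d3 r4))
  convert r using 1
  rw [← hc, ← hb]; ring

/-- The main mechanism: if the remaining orders `L` represent an interval of length `A + 4`
starting at `s`, then every `n ≥ s + 2` is represented. -/
theorem main_of_run {m A : ℕ} {P L : Finset ℕ} (hm : 2 ≤ m) (hA : 4 ≤ A) (hP : Pairs m A P)
    (hd : Disjoint P L) (s : ℕ) (hs : ∀ r, s ≤ r → r < s + (A + 4) → RepS m L r) (n : ℕ)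
    (hn : s + 2 ≤ n) : RepS m (P ∪ L) n := by
  obtain ⟨c, b, hv, h1, h2⟩ := exists_valid A hA (n - s) (by omega)
  have := (hP.rep hm hv).union hd (hs (n - (A * c + 2 * b)) (by omega) (by omega))
  convert this using 1
  omega

/-- The remaining orders for `m ≥ 15`. -/
theorem run_large {m : ℕ} (hm : 15 ≤ m) {L : Finset ℕ} (hL : m - 8 ≤ L.card) (h1 : 1 ∈ L)
    (h2 : 2 ∈ L) (h8 : 8 ∈ L) (hm1 : m - 1 ∈ L) (hm0 : m ∈ L) (r : ℕ) (hr1 : m + 1 ≤ r)
    (hr2 : r < m + 1 + (3 * m - 3 + 4)) : RepS m L r := by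
  classical
  have one : ∀ i ∈ L, m + i ≤ r → r ≤ m + i + (m - 9) → RepS m L r := by
    intro i hi ha hb
    have hsub : ({i} : Finset ℕ) ⊆ L := by simpa using hi
    have hc : (L \ {i}).card = L.card - 1 := by
      rw [Finset.card_sdiff_of_subset hsub]; simp
    have := (RepS.two (m := m) (i := i) (by omega)).union
      (Finset.disjoint_sdiff (s := {i}) (t := L)) (RepS.ones (m := m) (t := r - (m + i)) (by omega))
    rw [Finset.union_sdiff_of_subset hsub] at this
    convert this using 1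
    omega
  have two : ∀ i ∈ L, ∀ j ∈ L, i ≠ j → (m + i) + (m + j) ≤ r →
      r ≤ (m + i) + (m + j) + (m - 10) → RepS m L r := by
    intro i hi j hj hij ha hb
    have hsub : ({i} ∪ {j} : Finset ℕ) ⊆ L := by
      intro k hk; simp at hk; rcases hk with rfl | rfl <;> assumption
    have hdj : Disjoint ({i} : Finset ℕ) {j} := by simpa using hij
    have hc : (L \ ({i} ∪ {j})).card = L.card - 2 := by
      rw [Finset.card_sdiff_of_subset hsub, Finset.card_union_of_disjoint hdj]; simp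
    have := ((RepS.two (m := m) (i := i) (by omega)).union hdj
      (RepS.two (m := m) (i := j) (by omega))).union
      (Finset.disjoint_sdiff (s := {i} ∪ {j}) (t := L))
      (RepS.ones (m := m) (t := r - ((m + i) + (m + j))) (by omega))
    rw [Finset.union_sdiff_of_subset hsub] at this
    convert this using 1
    omega
  by_cases c1 : r ≤ 2 * m - 8
  · exact one 1 h1 (by omega) (by omega)
  by_cases c2 : r ≤ 2 * m - 1
  · exact one 8 h8 (by omega) (by omega)
  by_cases c3 : r ≤ 3 * m - 9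
  · exact one m hm0 (by omega) (by omega)
  by_cases c4 : r ≤ 3 * m - 7
  · exact two 1 h1 2 h2 (by omega) (by omega) (by omega)
  by_cases c5 : r ≤ 3 * m - 1
  · exact two 1 h1 8 h8 (by omega) (by omega) (by omega)
  by_cases c6 : r ≤ 3 * m
  · exact two 2 h2 8 h8 (by omega) (by omega) (by omega)
  by_cases c7 : r ≤ 4 * m - 9
  · exact two 1 h1 m hm0 (by omega) (by omega) (by omega)
  by_cases c8 : r ≤ 4 * m - 8
  · exact two 2 h2 m hm0 (by omega) (by omega) (by omega)
  by_cases c9 : r ≤ 4 * m - 2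
  · exact two 8 h8 m hm0 (by omega) (by omega) (by omega)
  · exact two (m - 1) hm1 m hm0 (by omega) (by omega) (by omega)

theorem large (m : ℕ) (hm : 15 ≤ m) (n : ℕ) : RepS m (Finset.Icc 1 m) n := by
  classical
  by_cases hn : n ≤ m
  · exact RepS.ones (by simpa using hn)
  by_cases hn1 : n = m + 1
  · rw [hn1]
    exact RepS.mono (T := {1}) (by intro k hk; simp at hk ⊢; omega) (RepS.two (by omega))
  by_cases hn2 : n = m + 2
  · rw [hn2]
    exact RepS.mono (T := {2}) (by intro k hk; simp at hk ⊢; omega) (RepS.two (by omega))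
  set P : Finset ℕ := {3, m - 2} ∪ ({4, m - 3} ∪ ({5, m - 4} ∪ {6, m - 5})) with hPdef
  have hPsub : P ⊆ Finset.Icc 1 m := by
    intro k hk
    simp [hPdef] at hk ⊢
    omega
  have hP : Pairs m (3 * m - 3) P := by
    refine ⟨3, m - 2, 4, m - 3, 5, m - 4, 6, m - 5, hPdef, ?_, ?_, ?_, by omega, by omega,
      by omega, by omega, by omega, by omega, by omega, by omega⟩ <;>
    · rw [Finset.disjoint_left]
      intro k hk hk'
      simp at hk hk'
      omega
  have hcard : P.card ≤ 8 := by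
    calc P.card ≤ ({3, m - 2} : Finset ℕ).card + ({4, m - 3} ∪ ({5, m - 4} ∪ {6, m - 5}) : Finset ℕ).card :=
          Finset.card_union_le _ _
      _ ≤ 2 + (({4, m - 3} : Finset ℕ).card + ({5, m - 4} ∪ {6, m - 5} : Finset ℕ).card) :=
          Nat.add_le_add Finset.card_le_two (Finset.card_union_le _ _)
      _ ≤ 2 + (2 + (({5, m - 4} : Finset ℕ).card + ({6, m - 5} : Finset ℕ).card)) := by
          gcongr
          · exact Finset.card_le_two
          · exact Finset.card_union_le _ _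
      _ ≤ 2 + (2 + (2 + 2)) := by
          gcongr <;> exact Finset.card_le_two
      _ = 8 := rfl
  have hL : m - 8 ≤ (Finset.Icc 1 m \ P).card := by
    rw [Finset.card_sdiff_of_subset hPsub]; simp; omega
  have hmem : ∀ k, 1 ≤ k → k ≤ m → (k ≤ 2 ∨ (7 ≤ k ∧ k ≤ m - 6) ∨ m - 1 ≤ k) →
      k ∈ Finset.Icc 1 m \ P := by
    intro k h1 h2 h3
    simp [hPdef]
    omega
  have := main_of_run (m := m) (A := 3 * m - 3) (P := P) (L := Finset.Icc 1 m \ P) (by omega)
    (by omega) hP Finset.disjoint_sdiff (m + 1)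
    (fun r hr1 hr2 => run_large hm hL (hmem 1 (by omega) (by omega) (by omega))
      (hmem 2 (by omega) (by omega) (by omega)) (hmem 8 (by omega) (by omega) (by omega))
      (hmem (m - 1) (by omega) (by omega) (by omega)) (hmem m (by omega) (by omega) (by omega))
      r hr1 hr2) n (by omega)
  rwa [Finset.union_sdiff_of_subset hPsub] at this

end Pool.H21.TS
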