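import Mathlib
import Pool.Agent.H21.TS.Poly

/-! A verified bit mask computation for sums of polygonal numbers, and an extension lemma. -/

namespace Pool.H21.TS

/-- All values `n' + polygonal k x`, `x ≤ X`, `n' ∈ M`, below `N`. -/
def orS (N k M : ℕ) : ℕ → ℕ
  | 0 => M
  | x + 1 => orS N k M x ||| ((M <<< polygonal k (x + 1)) % 2 ^ N)

/-- The set of values of a list of indices `(i, X)`, as a bit mask. -/
def maskL (N m : ℕ) : List (ℕ × ℕ) → ℕ
  | [] => 1
  | (i, X) :: l => orS N (m + i) (maskL N m l) X

theorem orS_spec (N k M : ℕ) : ∀ (X n : ℕ), (orS N k M X).testBit n = true →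
    ∃ x n', n = polygonal k x + n' ∧ M.testBit n' = true := by
  intro X
  induction X with
  | zero => intro n h; exact ⟨0, n, by simp, h⟩
  | succ X ih =>
    intro n h
    rw [orS, Nat.testBit_or, Bool.or_eq_true] at h
    rcases h with h | h
    · exact ih n h
    · rw [Nat.testBit_mod_two_pow, Bool.and_eq_true] at h
      rw [Nat.testBit_shiftLeft, Bool.and_eq_true] at h
      obtain ⟨-, h1, h2⟩ := h
      simp only [ge_iff_le, decide_eq_true_eq] at h1
      exact ⟨X + 1, n - polygonal k (X + 1), by omega, h2⟩

theorem maskL_spec (N m : ℕ) : ∀ (l : List (ℕ × ℕ)), (l.map Prod.fst).Nodup → ∀ n,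
    (maskL N m l).testBit n = true → RepS m (l.map Prod.fst).toFinset n := by
  intro l
  induction l with
  | nil =>
    intro _ n h
    have : n = 0 := by
      by_contra hn
      rw [maskL] at h
      have : Nat.testBit 1 n = false := by
        rw [Nat.testBit_one_eq_true_iff_self_eq_zero.not.mpr hn |> Bool.eq_false_iff.mpr]
      rw [this] at h; exact Bool.noConfusion h
    rw [this]; exact RepS.zero _ _
  | cons a l ih =>
    intro hnd n h
    obtain ⟨i, X⟩ := a
    rw [List.map_cons, List.nodup_cons] at hnd
    obtain ⟨x, n', hn, h'⟩ := orS_spec N (m + i) (maskL N m l) X n h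
    have h1 := ih hnd.2 n' h'
    have h2 : RepS m {i} (polygonal (m + i) x) := ⟨fun _ => x, by simp⟩
    have hd : Disjoint ({i} : Finset ℕ) (l.map Prod.fst).toFinset := by
      rw [Finset.disjoint_singleton_left, List.mem_toFinset]
      exact hnd.1
    have h3 := h2.union hd h1
    rw [← hn] at h3
    convert h3 using 1
    simp

/-- All bits in `[s, e)` are set. -/
def allSet (M s e : ℕ) : Bool := decide ((M >>> s) % 2 ^ (e - s) = 2 ^ (e - s) - 1)

theorem allSet_spec (M s e : ℕ) (h : allSet M s e = true) (r : ℕ) (h1 : s ≤ r) (h2 : r < e) :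
    M.testBit r = true := by
  unfold allSet at h
  rw [decide_eq_true_eq] at h
  have h3 : ((M >>> s) % 2 ^ (e - s)).testBit (r - s) = true := by
    rw [h, Nat.testBit_two_pow_sub_one]
    simp; omega
  rw [Nat.testBit_mod_two_pow, Bool.and_eq_true, Nat.testBit_shiftRight] at h3
  have : s + (r - s) = r := by omega
  rw [this] at h3
  exact h3.2

/-- The finite check. -/
theorem rep_of_check (m N : ℕ) (l : List (ℕ × ℕ)) (T : Finset ℕ) (s e : ℕ)
    (hT : (l.map Prod.fst).toFinset = T) (hnd : (l.map Prod.fst).Nodup)
    (h : allSet (maskL N m l) s e = true) (r : ℕ) (h1 : s ≤ r) (h2 : r < e) : RepS m T r := by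
  rw [← hT]
  exact maskL_spec N m l hnd r (allSet_spec _ s e h r h1 h2)

/-- Adding one more order extends an interval quadratically. -/
theorem extend {m i : ℕ} {T : Finset ℕ} (hi : i ∉ T) (s e : ℕ)
    (h : ∀ r, s ≤ r → r < e → RepS m T r) :
    ∀ X : ℕ, (m + i - 2) * (X - 1) + 1 ≤ e - s → ∀ n, s ≤ n → n < polygonal (m + i) X + e →
      RepS m (insert i T) n := by
  have base : ∀ x n, s + polygonal (m + i) x ≤ n → n < polygonal (m + i) x + e →
      RepS m (insert i T) n := by
    intro x n h1 h2
    have h3 := h (n - polygonal (m + i) x) (by omega) (by omega)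
    have h4 : RepS m {i} (polygonal (m + i) x) := ⟨fun _ => x, by simp⟩
    have hd : Disjoint ({i} : Finset ℕ) T := by
      rw [Finset.disjoint_singleton_left]; exact hi
    have h5 := h4.union hd h3
    have h6 : polygonal (m + i) x + (n - polygonal (m + i) x) = n := by omega
    rw [h6] at h5
    exact h5
  intro X
  induction X with
  | zero =>
    intro _ n h1 h2
    exact base 0 n (by simpa using h1) h2
  | succ X ih =>
    intro hX n h1 h2
    by_cases h3 : s + polygonal (m + i) (X + 1) ≤ n
    · exact base (X + 1) n h3 h2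
    · have hle : (m + i - 2) * (X - 1) + 1 ≤ e - s := by
        refine le_trans ?_ hX
        have : X - 1 ≤ X + 1 - 1 := by omega
        have := Nat.mul_le_mul_left (m + i - 2) this
        omega
      apply ih hle n h1
      have hgap : polygonal (m + i) (X + 1) = polygonal (m + i) X + ((m + i - 2) * X + 1) := by
        rw [polygonal_eq, polygonal_eq, Nat.choose_succ_succ' X 1]
        simp
        ring
      have h4 : X + 1 - 1 = X := by omega
      rw [h4] at hX
      omega

end Pool.H21.TS
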