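import Mathlib
import Pool.Agent.H21.TS.DP

/-! Representations from three symmetric pairs and Gauss's theorem on triangular numbers. -/

namespace Pool.H21.TS

/-- Gauss: every natural number is a sum of three triangular numbers. -/
theorem three_triangular (T : ℕ) : ∃ y₁ y₂ y₃ : ℕ,
    T = (y₁ + 1).choose 2 + (y₂ + 1).choose 2 + (y₃ + 1).choose 2 := by
  obtain ⟨x, y, z, h⟩ := three_sq (8 * T + 3) (by omega)
  have key : ∀ w : ℤ, (w ^ 2 % 8 = 0 ∨ w ^ 2 % 8 = 4) ∧ w % 2 = 0 ∨ w ^ 2 % 8 = 1 ∧ w % 2 = 1 := by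
    intro w
    rcases Int.emod_two_eq_zero_or_one w with h | h
    · left
      refine ⟨?_, h⟩
      obtain ⟨k, rfl⟩ : ∃ k, w = 2 * k := ⟨w / 2, by omega⟩
      have e : (2 * k) ^ 2 = 4 * (k * k) := by ring
      rw [e]; omega
    · right
      refine ⟨?_, h⟩
      obtain ⟨k, rfl⟩ : ∃ k, w = 2 * k + 1 := ⟨w / 2, by omega⟩
      obtain ⟨d, hd⟩ := Int.even_mul_succ_self k
      have e : (2 * k + 1) ^ 2 = 4 * (k * (k + 1)) + 1 := by ring
      rw [e, hd]; omega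
  have hodd : x % 2 = 1 ∧ y % 2 = 1 ∧ z % 2 = 1 := by
    push_cast at h
    rcases key x with ⟨h1, h1'⟩ | ⟨h1, h1'⟩ <;> rcases key y with ⟨h2, h2'⟩ | ⟨h2, h2'⟩ <;>
      rcases key z with ⟨h3, h3'⟩ | ⟨h3, h3'⟩ <;> omega
  -- every odd `w` has `w ^ 2 = 8 * (y + 1).choose 2 + 1`
  have key2 : ∀ w : ℤ, w % 2 = 1 → ∃ y : ℕ, w ^ 2 = 8 * ((y + 1).choose 2 : ℕ) + 1 := by
    intro w hw
    obtain ⟨y, hy⟩ : ∃ y : ℕ, w = 2 * y + 1 ∨ w = -(2 * y + 1) := by
      rcases le_or_gt 0 w with h0 | h0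
      · exact ⟨(w / 2).toNat, Or.inl (by omega)⟩
      · exact ⟨((-w) / 2).toNat, Or.inr (by omega)⟩
    refine ⟨y, ?_⟩
    have h2 : 2 * ((y + 1).choose 2) = (y + 1) * y := by
      rw [Nat.choose_two_right, Nat.add_sub_cancel]
      exact Nat.mul_div_cancel' (by rw [mul_comm]; exact (Nat.even_mul_succ_self y).two_dvd)
    have h3 : (2 : ℤ) * (((y + 1).choose 2 : ℕ) : ℤ) = (y + 1) * y := by exact_mod_cast h2
    rcases hy with rfl | rfl <;> linear_combination -4 * h3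
  obtain ⟨a, ha⟩ := key2 x hodd.1
  obtain ⟨b, hb⟩ := key2 y hodd.2.1
  obtain ⟨c, hc⟩ := key2 z hodd.2.2
  refine ⟨a, b, c, ?_⟩
  rw [ha, hb, hc] at h
  push_cast at h
  have : (T : ℤ) = (((a + 1).choose 2 : ℕ) : ℤ) + (((b + 1).choose 2 : ℕ) : ℤ) +
    (((c + 1).choose 2 : ℕ) : ℤ) := by linarith
  exact_mod_cast this

/-- A pair of indices `i, j`: `k = m + i - 2`, `k' = m + j - 2`, `k κ' = k' κ = L`. -/
structure PairData (m S i j κ κ' u w : ℕ) : Prop where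
  hi : 2 ≤ m + i
  hj : 2 ≤ m + j
  hij : i ≠ j
  hS : (m + i - 2) + (m + j - 2) = S
  hL : (m + i - 2) * κ' = (m + j - 2) * κ
  hu : 2 * u = (κ + κ') * ((m + i - 2) * κ')
  hw : w = κ + κ'

theorem polygonal_two_mul (k x : ℕ) : (2 : ℤ) * polygonal (k + 2) x = k * x * (x - 1) + 2 * x := by
  rw [polygonal_eq]
  have h2 : 2 * (x.choose 2) = x * (x - 1) := by
    rw [Nat.choose_two_right]
    exact Nat.mul_div_cancel' (Nat.even_mul_pred_self x).two_dvd
  have h3 : (2 : ℤ) * ((x.choose 2 : ℕ) : ℤ) = x * (x - 1) := by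
    rcases x with _ | x
    · simp
    · have : ((x + 1 - 1 : ℕ) : ℤ) = (x + 1 : ℕ) - 1 := by push_cast; simp
      rw [← this]; exact_mod_cast h2
  simp only [Nat.add_sub_cancel]
  push_cast
  linear_combination k * h3

theorem PairData.rep {m S i j κ κ' u w : ℕ} (h : PairData m S i j κ κ' u w) (a y : ℕ)
    (hy : y ≤ κ' * a) : RepS m {i, j} (1 + S * (y + 1).choose 2 + (u * a ^ 2 + w * a)) := by
  obtain ⟨hi, hj, hij, hS, hL, hu, hw⟩ := h
  obtain ⟨k, hk⟩ : ∃ k, m + i = k + 2 := ⟨m + i - 2, by omega⟩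
  obtain ⟨k', hk'⟩ : ∃ k', m + j = k' + 2 := ⟨m + j - 2, by omega⟩
  have e1 : m + i - 2 = k := by omega
  have e2 : m + j - 2 = k' := by omega
  rw [e1] at hS hL hu
  rw [e2] at hS hL
  obtain ⟨x, hx⟩ : ∃ x, κ' * a = x + y := ⟨κ' * a - y, by omega⟩
  refine ⟨fun n => if n = i then x else κ * a + y + 1, ?_⟩
  rw [Finset.sum_pair hij]
  simp only [if_true, if_neg hij.symm]
  rw [hk, hk']
  have p1 := polygonal_two_mul k x
  have p2 := polygonal_two_mul k' (κ * a + y + 1)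
  have h2 : 2 * ((y + 1).choose 2) = (y + 1) * y := by
    rw [Nat.choose_two_right, Nat.add_sub_cancel]
    exact Nat.mul_div_cancel' (by rw [mul_comm]; exact (Nat.even_mul_succ_self y).two_dvd)
  have h3 : (2 : ℤ) * (((y + 1).choose 2 : ℕ) : ℤ) = (y + 1) * y := by exact_mod_cast h2
  have hx' : (κ' : ℤ) * a = x + y := by exact_mod_cast hx
  have hx'' : (x : ℤ) = κ' * a - y := by linarith
  have hS' : (k : ℤ) + k' = S := by exact_mod_cast hS
  have hL' : (k : ℤ) * κ' = k' * κ := by exact_mod_cast hL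
  have hu' : (2 : ℤ) * u = (κ + κ') * (k * κ') := by exact_mod_cast hu
  have hw' : (w : ℤ) = κ + κ' := by exact_mod_cast hw
  have goal2 : (2 : ℤ) * ((1 + S * (y + 1).choose 2 + (u * a ^ 2 + w * a) : ℕ) : ℤ) =
      2 * ((polygonal (k + 2) x + polygonal (k' + 2) (κ * a + y + 1) : ℕ) : ℤ) := by
    push_cast
    rw [mul_add (2 : ℤ) (polygonal (k + 2) x : ℤ), p1, p2]
    push_cast
    rw [hx'', ← hS', hw']
    linear_combination (k + k' : ℤ) * h3 + (a : ℤ) ^ 2 * hu' +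
      ((κ : ℤ) * a ^ 2 + 2 * a * y + a) * hL'
  have : ((1 + S * (y + 1).choose 2 + (u * a ^ 2 + w * a) : ℕ) : ℤ) =
    ((polygonal (k + 2) x + polygonal (k' + 2) (κ * a + y + 1) : ℕ) : ℤ) := by linarith
  exact_mod_cast this

end Pool.H21.TS
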