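import Mathlib
import Pool.Agent.H21.TS.Tri

/-! Families of representations along quadratic progressions. -/

namespace Pool.H21.TS

/-- Three disjoint pairs and a rest. -/
theorem tri_rep {m S i₁ j₁ κ₁ κ₁' u₁ w₁ i₂ j₂ κ₂ κ₂' u₂ w₂ i₃ j₃ κ₃ κ₃' u₃ w₃ : ℕ}
    (h₁ : PairData m S i₁ j₁ κ₁ κ₁' u₁ w₁) (h₂ : PairData m S i₂ j₂ κ₂ κ₂' u₂ w₂)
    (h₃ : PairData m S i₃ j₃ κ₃ κ₃' u₃ w₃) {L : Finset ℕ}
    (d₁ : Disjoint ({i₁, j₁} : Finset ℕ) ({i₂, j₂} ∪ ({i₃, j₃} ∪ L)))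
    (d₂ : Disjoint ({i₂, j₂} : Finset ℕ) ({i₃, j₃} ∪ L))
    (d₃ : Disjoint ({i₃, j₃} : Finset ℕ) L) {r : ℕ} (hr : RepS m L r) (a b c T : ℕ)
    (ha : T ≤ (κ₁' * a + 1).choose 2) (hb : T ≤ (κ₂' * b + 1).choose 2)
    (hc : T ≤ (κ₃' * c + 1).choose 2) :
    RepS m ({i₁, j₁} ∪ ({i₂, j₂} ∪ ({i₃, j₃} ∪ L)))
      (3 + r + S * T + (u₁ * a ^ 2 + w₁ * a) + (u₂ * b ^ 2 + w₂ * b) + (u₃ * c ^ 2 + w₃ * c)) := by
  obtain ⟨y₁, y₂, y₃, hT⟩ := three_triangular T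
  have key : ∀ y k : ℕ, (y + 1).choose 2 ≤ (k + 1).choose 2 → y ≤ k := by
    intro y k h
    by_contra hlt
    push Not at hlt
    have h1 : (k + 2).choose 2 ≤ (y + 1).choose 2 := Nat.choose_le_choose 2 (by omega)
    have h2 : (k + 2).choose 2 = (k + 1) + (k + 1).choose 2 := by
      rw [Nat.choose_succ_succ' (k + 1) 1]; simp
    omega
  have r₁ := h₁.rep a y₁ (key _ _ (by omega))
  have r₂ := h₂.rep b y₂ (key _ _ (by omega))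
  have r₃ := h₃.rep c y₃ (key _ _ (by omega))
  have := r₁.union d₁ (r₂.union d₂ (r₃.union d₃ hr))
  convert this using 1
  rw [hT]; ring

/-- The check for one residue class. -/
def rowOK (S κ₁ u₁ w₁ κ₂ u₂ w₂ κ₃ u₃ w₃ A B C J N₀ ρ α β γ r : ℕ) : Bool :=
  let P₂ := u₁ * A ^ 2 + u₂ * B ^ 2 + u₃ * C ^ 2
  let P₁ := 2 * u₁ * A * α + w₁ * A + (2 * u₂ * B * β + w₂ * B) + (2 * u₃ * C * γ + w₃ * C)
  let P₀ := 3 + r + (u₁ * α ^ 2 + w₁ * α) + (u₂ * β ^ 2 + w₂ * β) + (u₃ * γ ^ 2 + w₃ * γ)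
  decide (0 < P₁) && decide (2 * P₂ % S = 0) && decide ((P₂ + P₁) % S = 0) && decide (P₀ % S = ρ) &&
  decide (P₂ * J ^ 2 + P₁ * J + P₀ ≤ N₀) &&
  decide (2 * (2 * P₂ * J + P₂ + P₁) ≤ S * ((κ₁ * (A * J + α)) ^ 2 + κ₁ * (A * J + α)) + 2 * S) &&
  decide (2 * (2 * P₂ * J + P₂ + P₁) ≤ S * ((κ₂ * (B * J + β)) ^ 2 + κ₂ * (B * J + β)) + 2 * S) &&
  decide (2 * (2 * P₂ * J + P₂ + P₁) ≤ S * ((κ₃ * (C * J + γ)) ^ 2 + κ₃ * (C * J + γ)) + 2 * S) &&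
  decide (4 * P₂ ≤ S * (2 * κ₁ ^ 2 * A * (A * J + α) + κ₁ * A)) &&
  decide (4 * P₂ ≤ S * (2 * κ₂ ^ 2 * B * (B * J + β) + κ₂ * B)) &&
  decide (4 * P₂ ≤ S * (2 * κ₃ ^ 2 * C * (C * J + γ) + κ₃ * C))

/-- Quadratic growth from the initial value and slope. -/
theorem growth (S κ A α P₂ P₁ J : ℕ)
    (h0 : 2 * (2 * P₂ * J + P₂ + P₁) ≤ S * ((κ * (A * J + α)) ^ 2 + κ * (A * J + α)) + 2 * S)
    (h1 : 4 * P₂ ≤ S * (2 * κ ^ 2 * A * (A * J + α) + κ * A)) (j : ℕ) (hj : J ≤ j) :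
    2 * (2 * P₂ * j + P₂ + P₁) ≤ S * ((κ * (A * j + α)) ^ 2 + κ * (A * j + α)) + 2 * S := by
  induction j, hj using Nat.le_induction with
  | base => exact h0
  | succ j hj ih =>
    have h2 : S * (2 * κ ^ 2 * A * (A * J + α) + κ * A) ≤
        S * (2 * κ ^ 2 * A * (A * j + α) + κ * A) := by gcongr
    have h3 : S * ((κ * (A * (j + 1) + α)) ^ 2 + κ * (A * (j + 1) + α)) =
        S * ((κ * (A * j + α)) ^ 2 + κ * (A * j + α)) +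
        S * (2 * κ ^ 2 * A * (A * j + α) + κ * A) + S * (κ ^ 2 * A ^ 2) := by ring
    have h4 : 2 * (2 * P₂ * (j + 1) + P₂ + P₁) = 2 * (2 * P₂ * j + P₂ + P₁) + 4 * P₂ := by ring
    rw [h3, h4]
    have h5 : 0 ≤ S * (κ ^ 2 * A ^ 2) := Nat.zero_le _
    omega

theorem row_spec {S κ₁ u₁ w₁ κ₂ u₂ w₂ κ₃ u₃ w₃ A B C J N₀ ρ α β γ r : ℕ} (hS : 0 < S)
    (h : rowOK S κ₁ u₁ w₁ κ₂ u₂ w₂ κ₃ u₃ w₃ A B C J N₀ ρ α β γ r = true) (n : ℕ) (hn : N₀ ≤ n)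
    (hρ : n % S = ρ) : ∃ a b c T : ℕ, T ≤ (κ₁ * a + 1).choose 2 ∧ T ≤ (κ₂ * b + 1).choose 2 ∧
      T ≤ (κ₃ * c + 1).choose 2 ∧
      n = 3 + r + S * T + (u₁ * a ^ 2 + w₁ * a) + (u₂ * b ^ 2 + w₂ * b) + (u₃ * c ^ 2 + w₃ * c) := by
  unfold rowOK at h
  simp only [Bool.and_eq_true, decide_eq_true_eq] at h
  set P₂ := u₁ * A ^ 2 + u₂ * B ^ 2 + u₃ * C ^ 2 with hP₂
  set P₁ := 2 * u₁ * A * α + w₁ * A + (2 * u₂ * B * β + w₂ * B) + (2 * u₃ * C * γ + w₃ * C) with hP₁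
  set P₀ := 3 + r + (u₁ * α ^ 2 + w₁ * α) + (u₂ * β ^ 2 + w₂ * β) + (u₃ * γ ^ 2 + w₃ * γ) with hP₀
  obtain ⟨⟨⟨⟨⟨⟨⟨⟨⟨⟨hpos, hm2⟩, hm1⟩, hm0⟩, hJ⟩, g1⟩, g2⟩, g3⟩, s1⟩, s2⟩, s3⟩ := h
  have hmono : Monotone (fun j : ℕ => P₂ * j ^ 2 + P₁ * j + P₀) := by
    intro x y hxy
    show P₂ * x ^ 2 + P₁ * x + P₀ ≤ P₂ * y ^ 2 + P₁ * y + P₀
    gcongr
  -- the last `j` with `lo j ≤ n`
  have hex : ∃ j : ℕ, n < P₂ * j ^ 2 + P₁ * j + P₀ := by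
    refine ⟨n + 1, ?_⟩
    have h1 : n + 1 ≤ P₁ * (n + 1) := Nat.le_mul_of_pos_left _ hpos
    have h2 : 0 ≤ P₂ * (n + 1) ^ 2 := Nat.zero_le _
    omega
  classical
  set j₁ := Nat.find hex with hj₁
  have hj₁s := Nat.find_spec hex
  rw [← hj₁] at hj₁s
  have hgt : J < j₁ := by
    by_contra hle
    push Not at hle
    have h1 : P₂ * j₁ ^ 2 + P₁ * j₁ + P₀ ≤ P₂ * J ^ 2 + P₁ * J + P₀ := hmono hle
    omega
  obtain ⟨j, hj⟩ : ∃ j, j₁ = j + 1 := ⟨j₁ - 1, by omega⟩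
  have hjn : P₂ * j ^ 2 + P₁ * j + P₀ ≤ n := by
    by_contra hlt
    push Not at hlt
    exact Nat.find_min hex (by omega : j < j₁) hlt
  rw [hj] at hj₁s
  have hJj : J ≤ j := by omega
  have hstep : P₂ * (j + 1) ^ 2 + P₁ * (j + 1) + P₀ =
      P₂ * j ^ 2 + P₁ * j + P₀ + (2 * P₂ * j + P₂ + P₁) := by ring
  -- residues
  have hres : ∀ j : ℕ, (P₂ * j ^ 2 + P₁ * j + P₀) % S = ρ := by
    intro j
    induction j with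
    | zero => simpa using hm0
    | succ j ih =>
      have e : P₂ * (j + 1) ^ 2 + P₁ * (j + 1) + P₀ =
        P₂ * j ^ 2 + P₁ * j + P₀ + ((2 * P₂) * j + (P₂ + P₁)) := by ring
      obtain ⟨x, hx⟩ := Nat.dvd_of_mod_eq_zero hm2
      obtain ⟨y, hy⟩ := Nat.dvd_of_mod_eq_zero hm1
      rw [e, hx, hy]
      have : S * x * j + S * y = S * (x * j + y) := by ring
      rw [this, Nat.add_mul_mod_self_left, ih]
  have hdiv : S ∣ n - (P₂ * j ^ 2 + P₁ * j + P₀) := by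
    apply (Nat.modEq_iff_dvd' hjn).mp
    unfold Nat.ModEq
    rw [hres j, hρ]
  obtain ⟨T, hT⟩ := hdiv
  have hTb : ∀ κ A α, 2 * (2 * P₂ * J + P₂ + P₁) ≤
      S * ((κ * (A * J + α)) ^ 2 + κ * (A * J + α)) + 2 * S →
      4 * P₂ ≤ S * (2 * κ ^ 2 * A * (A * J + α) + κ * A) →
      T ≤ (κ * (A * j + α) + 1).choose 2 := by
    intro κ A α h0 h1
    have h2 := growth S κ A α P₂ P₁ J h0 h1 j hJj
    set k := κ * (A * j + α) with hk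
    have h3 : 2 * ((k + 1).choose 2) = k ^ 2 + k := by
      rw [Nat.choose_two_right, Nat.add_sub_cancel]
      rw [Nat.mul_div_cancel' (by rw [mul_comm]; exact (Nat.even_mul_succ_self k).two_dvd)]
      ring
    have h4 : S * T < 2 * P₂ * j + P₂ + P₁ := by omega
    have h5 : S * (2 * T) < S * (2 * ((k + 1).choose 2) + 2) := by
      rw [h3]
      have : S * (2 * T) = 2 * (S * T) := by ring
      have h6 : S * (k ^ 2 + k + 2) = S * (k ^ 2 + k) + 2 * S := by ring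
      omega
    have h6 := Nat.lt_of_mul_lt_mul_left h5
    omega
  refine ⟨A * j + α, B * j + β, C * j + γ, T, hTb _ _ _ g1 s1, hTb _ _ _ g2 s2, hTb _ _ _ g3 s3, ?_⟩
  have hn' : n = P₂ * j ^ 2 + P₁ * j + P₀ + S * T := by omega
  rw [hn', hP₂, hP₁, hP₀]
  ring

end Pool.H21.TS
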