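import Mathlib
import Pool.Agent.H21.TS.ThreeSq

/-! Every `m ≡ 1, 2 mod 4` is a sum of three squares, and the full theorem of Legendre. -/

namespace Pool.H21.TS

open scoped NumberTheorySymbols

/-- The auxiliary prime for `m ≡ 1 mod 4`. -/
theorem exists_aux_prime1 (m : ℕ) (hm : m % 4 = 1) :
    ∃ q : ℕ, q.Prime ∧ q % 4 = 1 ∧ (m : ℤ) ∣ q + 1 ∧ ∃ b : ℤ, (q : ℤ) ∣ b ^ 2 + m := by
  have hm0 : (4 * m : ℕ) ≠ 0 := by omega
  have hcop : IsCoprime (2 * (m : ℤ) - 1) ((4 * m : ℕ) : ℤ) := by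
    obtain ⟨k, hk⟩ : ∃ k : ℤ, (m : ℤ) = 4 * k + 1 := ⟨m / 4, by omega⟩
    push_cast
    apply IsCoprime.mul_right
    · rw [hk]; exact ⟨1, -(2 * k), by ring⟩
    · exact ⟨-1, 2, by ring⟩
  obtain ⟨q, -, hq, hmod⟩ := Nat.forall_exists_prime_gt_and_zmodEq 0 hm0 hcop
  have hq4 : q % 4 = 1 := by
    have h4 : (q : ℤ) ≡ 2 * (m : ℤ) - 1 [ZMOD 4] := by
      apply Int.ModEq.of_dvd _ hmod
      push_cast; exact Dvd.intro _ rfl
    have : (q : ℤ) % 4 = 1 := by
      rw [h4]; omega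
    omega
  have hd : (m : ℤ) ∣ q + 1 := by
    have h4 : (q : ℤ) ≡ 2 * (m : ℤ) - 1 [ZMOD m] := by
      apply Int.ModEq.of_dvd _ hmod
      push_cast; exact Dvd.intro_left _ rfl
    have h5 := h4.dvd
    have h7 : ((q : ℤ) + 1) = m * 2 - (2 * (m : ℤ) - 1 - q) := by ring
    rw [h7]
    exact dvd_sub (Dvd.intro _ rfl) h5
  refine ⟨q, hq, hq4, hd, ?_⟩
  have : Fact q.Prime := ⟨hq⟩
  have hmodd : Odd m := Nat.odd_iff.mpr (by omega)
  have h1 : J((q : ℤ) | m) = 1 := by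
    have : J((q : ℤ) | m) = J(-1 | m) := by
      apply jacobiSym.mod_left'
      apply Int.ModEq.symm
      apply Int.modEq_of_dvd
      have : (q : ℤ) - -1 = q + 1 := by ring
      rw [this]; exact hd
    rw [this, jacobiSym.at_neg_one hmodd, ZMod.χ₄_nat_eq_if_mod_four]
    simp [hm]; omega
  have h3 : J((m : ℤ) | q) = 1 := by
    rw [← jacobiSym.quadratic_reciprocity_one_mod_four hq4 hmodd]; exact h1
  have h4 : legendreSym q (-(m : ℤ)) = 1 := by
    rw [jacobiSym.legendreSym.to_jacobiSym]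
    have : (-(m : ℤ)) = -1 * m := by ring
    rw [this, jacobiSym.mul_left, h3, mul_one, jacobiSym.at_neg_one (Nat.odd_iff.mpr (by omega))]
    rw [ZMod.χ₄_nat_eq_if_mod_four]
    simp [hq4]; omega
  have h0 : ((-(m : ℤ) : ℤ) : ZMod q) ≠ 0 := by
    intro h
    have : legendreSym q (-(m : ℤ)) = 0 := (legendreSym.eq_zero_iff q _).mpr h
    omega
  obtain ⟨b, hb⟩ := (legendreSym.eq_one_iff q h0).mp h4
  refine ⟨(b.val : ℤ), ?_⟩
  rw [← ZMod.intCast_zmod_eq_zero_iff_dvd]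
  push_cast
  rw [ZMod.natCast_zmod_val, pow_two, ← hb]
  push_cast
  ring

/-- The auxiliary prime for `m ≡ 2 mod 4`. -/
theorem exists_aux_prime2 (m : ℕ) (hm : m % 4 = 2) :
    ∃ q : ℕ, q.Prime ∧ q % 4 = 1 ∧ (m : ℤ) ∣ q + 1 ∧ ∃ b : ℤ, (q : ℤ) ∣ b ^ 2 + m := by
  have hm0 : (4 * m : ℕ) ≠ 0 := by omega
  obtain ⟨n, hn⟩ : ∃ n : ℕ, m = 2 * n := ⟨m / 2, by omega⟩
  have hnodd : Odd n := Nat.odd_iff.mpr (by omega)
  have hcop : IsCoprime ((m : ℤ) - 1) ((4 * m : ℕ) : ℤ) := by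
    obtain ⟨k, hk⟩ : ∃ k : ℤ, (m : ℤ) = 4 * k + 2 := ⟨m / 4, by omega⟩
    push_cast
    apply IsCoprime.mul_right
    · rw [hk]; exact ⟨1, -k, by ring⟩
    · exact ⟨-1, 1, by ring⟩
  obtain ⟨q, -, hq, hmod⟩ := Nat.forall_exists_prime_gt_and_zmodEq 0 hm0 hcop
  have hq8 : (q : ℤ) % 8 = ((m : ℤ) - 1) % 8 := by
    apply Int.ModEq.of_dvd _ hmod
    obtain ⟨k, hk⟩ : ∃ k : ℕ, m = 2 * k := ⟨n, hn⟩
    rw [hk]; push_cast
    exact ⟨k, by ring⟩
  have hq4 : q % 4 = 1 := by omega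
  have hd : (m : ℤ) ∣ q + 1 := by
    have h4 : (q : ℤ) ≡ (m : ℤ) - 1 [ZMOD m] := by
      apply Int.ModEq.of_dvd _ hmod
      push_cast; exact Dvd.intro_left _ rfl
    have h5 := h4.dvd
    have h7 : ((q : ℤ) + 1) = m - ((m : ℤ) - 1 - q) := by ring
    rw [h7]
    exact dvd_sub (dvd_refl _) h5
  refine ⟨q, hq, hq4, hd, ?_⟩
  have : Fact q.Prime := ⟨hq⟩
  have hqodd : Odd q := Nat.odd_iff.mpr (by omega)
  have h1 : J((q : ℤ) | n) = J(-1 | n) := by
    apply jacobiSym.mod_left'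
    apply Int.ModEq.symm
    apply Int.modEq_of_dvd
    have : (q : ℤ) - -1 = q + 1 := by ring
    rw [this]
    refine dvd_trans ?_ hd
    rw [hn]; push_cast; exact Dvd.intro_left _ rfl
  have h3 : J((n : ℤ) | q) = J(-1 | n) := by
    rw [← jacobiSym.quadratic_reciprocity_one_mod_four hq4 hnodd]; exact h1
  have h4 : legendreSym q (-(m : ℤ)) = 1 := by
    rw [jacobiSym.legendreSym.to_jacobiSym]
    have : (-(m : ℤ)) = -1 * (2 * n) := by rw [hn]; push_cast; ring
    rw [this, jacobiSym.mul_left, jacobiSym.mul_left, h3,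
      jacobiSym.at_neg_one hqodd, jacobiSym.at_neg_one hnodd, jacobiSym.at_two hqodd,
      ZMod.χ₄_nat_eq_if_mod_four, ZMod.χ₄_nat_eq_if_mod_four, ZMod.χ₈_nat_eq_if_mod_eight]
    have hn4 : n % 4 = 1 ∨ n % 4 = 3 := by omega
    rcases hn4 with h | h
    · have hq1 : q % 8 = 1 := by omega
      have e1 : ¬ q % 2 = 0 := by omega
      have e2 : ¬ n % 2 = 0 := by omega
      simp [hq4, h, hq1, e1, e2]
    · have hq1 : q % 8 = 5 := by omega
      have e1 : ¬ q % 2 = 0 := by omega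
      have e2 : ¬ n % 2 = 0 := by omega
      simp [hq4, h, hq1, e1, e2]
  have h0 : ((-(m : ℤ) : ℤ) : ZMod q) ≠ 0 := by
    intro h
    have : legendreSym q (-(m : ℤ)) = 0 := (legendreSym.eq_zero_iff q _).mpr h
    omega
  obtain ⟨b, hb⟩ := (legendreSym.eq_one_iff q h0).mp h4
  refine ⟨(b.val : ℤ), ?_⟩
  rw [← ZMod.intCast_zmod_eq_zero_iff_dvd]
  push_cast
  rw [ZMod.natCast_zmod_val, pow_two, ← hb]
  push_cast
  ring

set_option maxHeartbeats 4000000 in
/-- The Minkowski step: `R² + V = m` with `V = qx² + 2bxy + hy²`, `R = qx + by + mz`. -/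
theorem mink_step12 (m q : ℕ) (hm : 0 < m) (hq : 0 < q) (b h : ℤ)
    (hbh : b ^ 2 + m = q * h) (hd : (m : ℤ) ∣ q + 1) :
    ∃ x y z : ℤ, (q * x + b * y + m * z) ^ 2 + (q * x ^ 2 + 2 * b * x * y + h * y ^ 2) = m ∧
      0 ≤ q * x ^ 2 + 2 * b * x * y + h * y ^ 2 := by
  have hmR : (0 : ℝ) < m := by exact_mod_cast hm
  have hqR : (0 : ℝ) < q := by exact_mod_cast hq
  set s : ℝ := Real.sqrt q with hs
  have hs0 : 0 < s := Real.sqrt_pos.mpr (by positivity)
  have hs2 : s ^ 2 = q := Real.sq_sqrt (by positivity)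
  set t : ℝ := Real.sqrt m with ht
  have ht0 : 0 < t := Real.sqrt_pos.mpr hmR
  have ht2 : t ^ 2 = m := Real.sq_sqrt hmR.le
  let N : Matrix (Fin 3) (Fin 3) ℝ := !![(q : ℝ), b, m; s, b / s, 0; 0, t / s, 0]
  have hdet : N.det = m * t := by
    rw [Matrix.det_fin_three]
    simp [N]
    field_simp
  have hr : 0 < Real.sqrt (2 * m) := Real.sqrt_pos.mpr (by positivity)
  have hr2 : Real.sqrt (2 * m) ^ 2 = 2 * m := Real.sq_sqrt (by positivity)
  have hr3 : Real.sqrt (2 * m) = Real.sqrt 2 * t := by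
    rw [ht, Real.sqrt_mul (by norm_num)]
  have hsq2 : (1.41 : ℝ) < Real.sqrt 2 := by
    rw [Real.lt_sqrt (by norm_num)]; norm_num
  have hlt : |N.det| * 8 < Real.sqrt (2 * m) ^ 3 * (Real.pi * 4 / 3) := by
    rw [hdet, abs_of_pos (by positivity)]
    have : Real.sqrt (2 * m) ^ 3 = 2 * m * (Real.sqrt 2 * t) := by
      rw [pow_succ, hr2, hr3]
    rw [this]
    have h1 : (8 : ℝ) < 2 * Real.sqrt 2 * (Real.pi * 4 / 3) := by
      nlinarith [Real.pi_gt_three, hsq2]
    have h2 : 0 < (m : ℝ) * t := by positivity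
    nlinarith [mul_lt_mul_of_pos_left h1 h2]
  obtain ⟨v, hv0, hv⟩ := exists_small N (by rw [hdet]; positivity) _ hr hlt
  set x := v 0
  set y := v 1
  set z := v 2
  rw [hr2] at hv
  simp only [Fin.sum_univ_three, Matrix.mulVec, dotProduct, N, Matrix.cons_val_zero,
    Matrix.cons_val_one, Matrix.cons_val, Matrix.of_apply] at hv
  have hbhR : (b : ℝ) ^ 2 + m = q * h := by exact_mod_cast hbh
  have e1 : (s * (x : ℝ) + b / s * y + 0 * z) ^ 2 + (0 * (x : ℝ) + t / s * y + 0 * z) ^ 2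
      = q * x ^ 2 + 2 * b * x * y + h * y ^ 2 := by
    have : (s * (x : ℝ) + b / s * y + 0 * z) ^ 2 + (0 * (x : ℝ) + t / s * y + 0 * z) ^ 2
      = s ^ 2 * x ^ 2 + 2 * b * x * y + (b ^ 2 + t ^ 2) / s ^ 2 * y ^ 2 := by
      field_simp
      ring
    rw [this, hs2, ht2, hbhR]
    field_simp
  have hv' : ((q : ℝ) * x + b * y + m * z) ^ 2 +
      (q * x ^ 2 + 2 * b * x * y + h * y ^ 2) < 2 * m := by
    rw [← e1]
    simp only [x, y, z]
    linarith [hv]
  have hv'' : ((q : ℤ) * x + b * y + m * z) ^ 2 +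
      (q * x ^ 2 + 2 * b * x * y + h * y ^ 2) < 2 * m := by exact_mod_cast hv'
  set V : ℤ := q * x ^ 2 + 2 * b * x * y + h * y ^ 2 with hV
  set X : ℤ := q * x + b * y with hX
  have key : q * V = X ^ 2 + m * y ^ 2 := by
    rw [hV, hX]; linear_combination (y ^ 2) * hbh.symm
  have hqZ : (0 : ℤ) < q := by exact_mod_cast hq
  have hmZ : (0 : ℤ) < m := by exact_mod_cast hm
  have hVnn : 0 ≤ V := by
    by_contra hneg
    push Not at hneg
    have : (q : ℤ) * V < 0 := by nlinarith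
    nlinarith [sq_nonneg X, sq_nonneg y]
  refine ⟨x, y, z, ?_, hVnn⟩
  -- divisibility
  obtain ⟨e, he⟩ := hd
  have hdvd : (m : ℤ) ∣ (X + m * z) ^ 2 + V := by
    have : (X + m * z) ^ 2 + V = (q + 1) * V + m * (2 * X * z + m * z ^ 2 - y ^ 2) := by
      linear_combination -key
    rw [this, he]
    exact dvd_add ((Dvd.intro e rfl).mul_right _) (Dvd.intro _ rfl)
  obtain ⟨k, hk⟩ := hdvd
  have hpos : 0 < (X + m * z) ^ 2 + V := by
    by_contra hle
    push Not at hle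
    have hV0 : V = 0 := by nlinarith [sq_nonneg (X + m * z)]
    have hR0 : X + m * z = 0 := by
      have : (X + m * z) ^ 2 = 0 := by nlinarith [sq_nonneg (X + m * z)]
      exact pow_eq_zero_iff (two_ne_zero) |>.mp this
    rw [hV0] at key
    have hy0 : y = 0 := by
      have : y ^ 2 = 0 := by nlinarith [sq_nonneg X, sq_nonneg y]
      exact pow_eq_zero_iff (two_ne_zero) |>.mp this
    have hX0 : X = 0 := by
      have : X ^ 2 = 0 := by nlinarith [sq_nonneg X, sq_nonneg y]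
      exact pow_eq_zero_iff (two_ne_zero) |>.mp this
    have hx0 : x = 0 := by
      rw [hX, hy0] at hX0
      have : (q : ℤ) * x = 0 := by linarith
      rcases mul_eq_zero.mp this with h' | h'
      · omega
      · exact h'
    have hz0 : z = 0 := by
      rw [hX0] at hR0
      have : (m : ℤ) * z = 0 := by linarith
      rcases mul_eq_zero.mp this with h' | h'
      · omega
      · exact h'
    apply hv0
    funext i
    fin_cases i
    · exact hx0
    · exact hy0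
    · exact hz0
  have hlt2 : (X + m * z) ^ 2 + V < 2 * m := by
    have : ((q : ℤ) * x + b * y + m * z) = X + m * z := by rw [hX]
    rw [← this]; exact hv''
  have hk1 : k = 1 := by
    rw [hk] at hpos hlt2
    have h1 : 0 < k := by
      by_contra hle; push Not at hle; nlinarith
    have h2 : k < 2 := by
      by_contra hle; push Not at hle; nlinarith
    omega
  rw [hk1, mul_one] at hk
  rw [← hX]
  exact hk

/-- The squarefree case. -/
theorem three_sq_squarefree12 (m : ℕ) (hm0 : 0 < m) (hsq : Squarefree m) (q : ℕ) (hq : q.Prime)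
    (hq4 : q % 4 = 1) (hd : (m : ℤ) ∣ q + 1) (hb' : ∃ b : ℤ, (q : ℤ) ∣ b ^ 2 + m) :
    ∃ x y z : ℤ, (m : ℤ) = x ^ 2 + y ^ 2 + z ^ 2 := by
  obtain ⟨b, h, hh⟩ := hb'
  obtain ⟨x, y, z, hxyz, hV⟩ := mink_step12 m q hm0 hq.pos b h hh hd
  set V : ℤ := q * x ^ 2 + 2 * b * x * y + h * y ^ 2 with hVdef
  set R : ℤ := q * x + b * y + m * z with hR
  obtain ⟨W, hW⟩ := Int.eq_ofNat_of_zero_le hV
  have hWm : (m : ℤ) = R ^ 2 + W := by rw [← hW]; exact hxyz.symm
  have hkey : (((q * W : ℕ)) : ℤ) = (q * x + b * y) ^ 2 + m * y ^ 2 := by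
    push_cast
    rw [← hW, hVdef]
    linear_combination (y ^ 2) * hh.symm
  -- W is a sum of two squares
  have hmain : ∃ u v : ℕ, W = u ^ 2 + v ^ 2 := by
    rw [Nat.eq_sq_add_sq_iff]
    intro p hpW hp4
    have hp := Nat.prime_of_mem_primeFactors hpW
    have hpd := Nat.dvd_of_mem_primeFactors hpW
    have hW0 : W ≠ 0 := by
      rintro rfl; simp at hpW
    have : Fact p.Prime := ⟨hp⟩
    have hpZ : Prime (p : ℤ) := Nat.prime_iff_prime_int.mp hp
    have hpdZ : (p : ℤ) ∣ W := by exact_mod_cast hpd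
    -- -1 is not a square mod p
    have hneg1 : ∀ s : ℤ, ¬ (p : ℤ) ∣ s ^ 2 + 1 := by
      intro s hs
      have h1 : IsSquare (-1 : ZMod p) := by
        refine ⟨(s : ZMod p), ?_⟩
        have h2 := (ZMod.intCast_zmod_eq_zero_iff_dvd (s ^ 2 + 1) p).mpr hs
        push_cast at h2
        linear_combination -h2
      exact (ZMod.exists_sq_eq_neg_one_iff.mp h1) hp4
    by_cases hpm : p ∣ m
    · exfalso
      -- p ∣ R
      have hpmZ : (p : ℤ) ∣ m := by exact_mod_cast hpm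
      have hpR : (p : ℤ) ∣ R := by
        have : (p : ℤ) ∣ R ^ 2 := by
          have h1 : R ^ 2 = m - W := by linarith
          rw [h1]; exact dvd_sub hpmZ hpdZ
        exact hpZ.dvd_of_dvd_pow this
      have hpX : (p : ℤ) ∣ q * x + b * y := by
        have : (p : ℤ) ∣ (q * x + b * y) ^ 2 := by
          have h1 : (q * x + b * y) ^ 2 = ((q * W : ℕ) : ℤ) - m * y ^ 2 := by
            rw [hkey]; ring
          rw [h1]
          apply dvd_sub
          · push_cast; exact hpdZ.mul_left _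
          · exact hpmZ.mul_right _
        exact hpZ.dvd_of_dvd_pow this
      obtain ⟨m', hm'⟩ := hpmZ
      obtain ⟨R', hR'⟩ := hpR
      obtain ⟨X', hX'⟩ := hpX
      have hpne : (p : ℤ) ≠ 0 := by exact_mod_cast hp.ne_zero
      have hm'p : ¬ (p : ℤ) ∣ m' := by
        rintro ⟨c, hc⟩
        have : (p * p : ℕ) ∣ m := by
          have h1 : ((p * p : ℕ) : ℤ) ∣ m := by
            rw [hm', hc]; push_cast; exact ⟨c, by ring⟩
          exact_mod_cast h1
        have := hsq p this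
        exact hp.one_lt.ne' (Nat.isUnit_iff.mp this)
      have hW' : (W : ℤ) = p * (m' - p * R' ^ 2) := by
        have : (W : ℤ) = m - R ^ 2 := by linarith
        rw [this, hm', hR']; ring
      have h5 : q * (m' - p * R' ^ 2) = p * X' ^ 2 + m' * y ^ 2 := by
        have h6 : (p : ℤ) * (q * (m' - p * R' ^ 2)) = p * (p * X' ^ 2 + m' * y ^ 2) := by
          have h7 := hkey
          push_cast at h7
          rw [hW', hX', hm'] at h7
          linear_combination h7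
        exact mul_left_cancel₀ hpne h6
      have h6 : (p : ℤ) ∣ m' * (y ^ 2 - q) := by
        refine ⟨-(q * R' ^ 2) - X' ^ 2, ?_⟩
        linear_combination -h5
      have h7 : (p : ℤ) ∣ y ^ 2 - q := (hpZ.dvd_or_dvd h6).resolve_left hm'p
      have h8 : (p : ℤ) ∣ q + 1 := by
        refine dvd_trans ?_ hd
        rw [hm']; exact Dvd.intro _ rfl
      apply hneg1 y
      have : y ^ 2 + 1 = (y ^ 2 - q) + (q + 1) := by ring
      rw [this]
      exact dvd_add h7 h8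
    · -- -m is not a square mod p
      have hpmZ : ¬ (p : ℤ) ∣ m := by exact_mod_cast hpm
      have hnm : ∀ s : ℤ, ¬ (p : ℤ) ∣ s ^ 2 + m := by
        intro s hs
        -- m ≡ R² so s² ≡ -R²
        have hRp : ¬ (p : ℤ) ∣ R := by
          intro hR1
          apply hpmZ
          rw [hWm]
          exact dvd_add (hR1.pow (by norm_num)) hpdZ
        have hcop : IsCoprime (p : ℤ) R := (Prime.coprime_iff_not_dvd hpZ).mpr hRp
        obtain ⟨u, v, huv⟩ := hcop
        apply hneg1 (s * v)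
        have h1 : (p : ℤ) ∣ s ^ 2 + R ^ 2 := by
          have : s ^ 2 + R ^ 2 = (s ^ 2 + m) - W := by rw [hWm]; ring
          rw [this]; exact dvd_sub hs hpdZ
        have h2 : (s * v) ^ 2 + 1 = (s ^ 2 + R ^ 2) * v ^ 2 + (1 - v * R) * (1 + v * R) := by ring
        rw [h2]
        apply dvd_add (h1.mul_right _)
        have h3 : (1 : ℤ) - v * R = p * u := by linarith
        rw [h3]
        exact (Dvd.intro u rfl).mul_right _
      have hev := even_val p hp m hnm (q * W) (by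
        have := hq.pos
        positivity) (q * x + b * y) y hkey
      have h2q : ¬ p ∣ q := by
        intro h2
        have := (Nat.prime_dvd_prime_iff_eq hp hq).mp h2
        omega
      rw [padicValNat.mul (by have := hq.pos; omega) hW0,
        padicValNat.eq_zero_of_not_dvd h2q, zero_add] at hev
      exact hev
  obtain ⟨u, v, huv⟩ := hmain
  refine ⟨R, u, v, ?_⟩
  rw [hWm, huv]; push_cast; ring

/-- Every `m ≡ 1, 2 mod 4` is a sum of three squares. -/
theorem three_sq12 (m : ℕ) (hm : m % 4 = 1 ∨ m % 4 = 2) :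
    ∃ x y z : ℤ, (m : ℤ) = x ^ 2 + y ^ 2 + z ^ 2 := by
  obtain ⟨a, b, ha, hb, hab, hsq⟩ := Nat.sq_mul_squarefree_of_pos (n := m) (by omega)
  have hbodd : b % 2 = 1 := by
    rcases Nat.mod_two_eq_zero_or_one b with h | h
    · exfalso
      obtain ⟨c, rfl⟩ : ∃ c, b = 2 * c := ⟨b / 2, by omega⟩
      have : m = 4 * (c ^ 2 * a) := by rw [← hab]; ring
      omega
    · exact h
  have ha4 : a % 4 = m % 4 := by
    obtain ⟨c, rfl⟩ : ∃ c, b = 2 * c + 1 := ⟨b / 2, by omega⟩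
    have h2 : m = 4 * ((c * c + c) * a) + a := by rw [← hab]; ring
    omega
  obtain ⟨q, hq, hq4, hd, hbq⟩ : ∃ q : ℕ, q.Prime ∧ q % 4 = 1 ∧ (a : ℤ) ∣ q + 1 ∧
      ∃ b : ℤ, (q : ℤ) ∣ b ^ 2 + a := by
    rcases hm with h | h
    · exact exists_aux_prime1 a (by omega)
    · exact exists_aux_prime2 a (by omega)
  obtain ⟨x, y, z, hxyz⟩ := three_sq_squarefree12 a ha hsq q hq hq4 hd hbq
  refine ⟨b * x, b * y, b * z, ?_⟩
  have : (m : ℤ) = b ^ 2 * a := by exact_mod_cast hab.symm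
  rw [this, hxyz]; ring

/-- **Legendre's three squares theorem**, both directions. -/
theorem legendre_three_squares (n : ℕ) :
    (∃ x y z : ℤ, (n : ℤ) = x ^ 2 + y ^ 2 + z ^ 2) ↔ ¬ ∃ a b : ℕ, n = 4 ^ a * (8 * b + 7) := by
  constructor
  · rintro hxyz ⟨a, b, hab⟩
    induction a generalizing n with
    | zero =>
      obtain ⟨x, y, z, h⟩ := hxyz
      have key : ∀ w : ℤ, w ^ 2 % 8 = 0 ∨ w ^ 2 % 8 = 1 ∨ w ^ 2 % 8 = 4 := by
        intro w
        have h8 : w % 8 = 0 ∨ w % 8 = 1 ∨ w % 8 = 2 ∨ w % 8 = 3 ∨ w % 8 = 4 ∨ w % 8 = 5 ∨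
          w % 8 = 6 ∨ w % 8 = 7 := by omega
        rcases h8 with h | h | h | h | h | h | h | h <;>
          · rw [pow_two, Int.mul_emod, h]; norm_num
      rw [pow_zero, one_mul] at hab
      rcases key x with h1 | h1 | h1 <;> rcases key y with h2 | h2 | h2 <;>
        rcases key z with h3 | h3 | h3 <;> omega
    | succ a ih =>
      obtain ⟨x, y, z, h⟩ := hxyz
      have h4 : n = 4 * (4 ^ a * (8 * b + 7)) := by rw [hab, pow_succ]; ring
      have key : ∀ w : ℤ, (w ^ 2 % 4 = 0 ∧ w % 2 = 0) ∨ (w ^ 2 % 4 = 1 ∧ w % 2 = 1) := by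
        intro w
        rcases Int.emod_two_eq_zero_or_one w with h | h
        · left
          obtain ⟨k, rfl⟩ : ∃ k, w = 2 * k := ⟨w / 2, by omega⟩
          refine ⟨?_, h⟩
          have e : (2 * k) ^ 2 = 4 * (k * k) := by ring
          rw [e]; omega
        · right
          obtain ⟨k, rfl⟩ : ∃ k, w = 2 * k + 1 := ⟨w / 2, by omega⟩
          refine ⟨?_, h⟩
          have e : (2 * k + 1) ^ 2 = 4 * (k * k + k) + 1 := by ring
          rw [e]; omega
      have hx : x % 2 = 0 ∧ y % 2 = 0 ∧ z % 2 = 0 := by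
        rcases key x with ⟨h1, h1'⟩ | ⟨h1, h1'⟩ <;> rcases key y with ⟨h2, h2'⟩ | ⟨h2, h2'⟩ <;>
          rcases key z with ⟨h3, h3'⟩ | ⟨h3, h3'⟩ <;> omega
      obtain ⟨x', rfl⟩ : ∃ k, x = 2 * k := ⟨x / 2, by omega⟩
      obtain ⟨y', rfl⟩ : ∃ k, y = 2 * k := ⟨y / 2, by omega⟩
      obtain ⟨z', rfl⟩ : ∃ k, z = 2 * k := ⟨z / 2, by omega⟩
      apply ih (4 ^ a * (8 * b + 7)) _ rfl
      refine ⟨x', y', z', ?_⟩
      have h5 : (4 : ℤ) * ((4 ^ a * (8 * b + 7) : ℕ) : ℤ) = 4 * (x' ^ 2 + y' ^ 2 + z' ^ 2) := by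
        have : (n : ℤ) = 4 * ((4 ^ a * (8 * b + 7) : ℕ) : ℤ) := by exact_mod_cast h4
        rw [← this, h]; ring
      linarith
  · intro hne
    induction n using Nat.strong_induction_on with
    | _ n ih =>
    rcases Nat.eq_zero_or_pos n with rfl | hpos
    · exact ⟨0, 0, 0, by norm_num⟩
    by_cases h4 : n % 4 = 0
    · obtain ⟨k, rfl⟩ : ∃ k, n = 4 * k := ⟨n / 4, by omega⟩
      obtain ⟨x, y, z, h⟩ := ih k (by omega) (by
        rintro ⟨a, b, hab⟩
        exact hne ⟨a + 1, b, by rw [hab, pow_succ]; ring⟩)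
      exact ⟨2 * x, 2 * y, 2 * z, by push_cast; rw [h]; ring⟩
    · by_cases h12 : n % 4 = 1 ∨ n % 4 = 2
      · exact three_sq12 n h12
      · have h8 : n % 8 = 3 ∨ n % 8 = 7 := by omega
        rcases h8 with h | h
        · exact three_sq n h
        · exact absurd ⟨0, n / 8, by omega⟩ hne

end Pool.H21.TS
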