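import Mathlib
import Pool.Agent.H21.TS.Fam
import Pool.Agent.H21.TS.ThreeSq12

/-! The case `m = 5`. -/

namespace Pool.H21.TS

/-- Selecting signs and the order of the three squares. -/
theorem select5 (M : ℕ) (h9 : M % 9 = 6) (h4 : M % 4 = 1 ∨ M % 4 = 2) :
    ∃ a b c : ℤ, (M : ℤ) = a ^ 2 + b ^ 2 + c ^ 2 ∧ a % 3 = 2 ∧ b % 3 = 1 ∧
      (a + c) % 9 = 0 ∧ (a + b) % 2 = 1 := by
  obtain ⟨x₀, y₀, z₀, h⟩ := three_sq12 M h4
  -- squares mod 9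
  have sq9 : ∀ w : ℤ, w ^ 2 % 9 = 0 ∧ w % 3 = 0 ∨
      ((w ^ 2 % 9 = 1 ∧ (w % 9 = 1 ∨ w % 9 = 8)) ∨ (w ^ 2 % 9 = 4 ∧ (w % 9 = 2 ∨ w % 9 = 7)) ∨
        (w ^ 2 % 9 = 7 ∧ (w % 9 = 4 ∨ w % 9 = 5))) := by
    intro w
    have h9 : w % 9 = 0 ∨ w % 9 = 1 ∨ w % 9 = 2 ∨ w % 9 = 3 ∨ w % 9 = 4 ∨ w % 9 = 5 ∨
      w % 9 = 6 ∨ w % 9 = 7 ∨ w % 9 = 8 := by omega
    rcases h9 with h | h | h | h | h | h | h | h | h <;>
      (have e : w ^ 2 % 9 = ((w % 9) * (w % 9)) % 9 := by rw [pow_two, Int.mul_emod]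
       rw [h] at e
       norm_num at e
       omega)
  have par : ∀ w : ℤ, w ^ 2 % 4 = 0 ∧ w % 2 = 0 ∨ w ^ 2 % 4 = 1 ∧ w % 2 = 1 := by
    intro w
    rcases Int.emod_two_eq_zero_or_one w with h | h
    · left
      obtain ⟨k, rfl⟩ : ∃ k, w = 2 * k := ⟨w / 2, by omega⟩
      refine ⟨?_, h⟩
      have e : (2 * k) ^ 2 = 4 * (k * k) := by ring
      rw [e]; omega
    · right
      obtain ⟨k, rfl⟩ : ∃ k, w = 2 * k + 1 := ⟨w / 2, by omega⟩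
      refine ⟨?_, h⟩
      have e : (2 * k + 1) ^ 2 = 4 * (k * k + k) + 1 := by ring
      rw [e]; omega
  -- normalise the signs
  have norm : ∀ w : ℤ, w % 3 ≠ 0 → ∃ v : ℤ, v ^ 2 = w ^ 2 ∧ v % 3 = 1 := by
    intro w hw
    rcases (by omega : w % 3 = 1 ∨ w % 3 = 2) with h | h
    · exact ⟨w, rfl, h⟩
    · exact ⟨-w, by ring, by omega⟩
  have hx3 : x₀ % 3 ≠ 0 := by
    rcases sq9 x₀ with h1 | h1 | h1 | h1 <;> rcases sq9 y₀ with h2 | h2 | h2 | h2 <;>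
      rcases sq9 z₀ with h3 | h3 | h3 | h3 <;> omega
  have hy3 : y₀ % 3 ≠ 0 := by
    rcases sq9 x₀ with h1 | h1 | h1 | h1 <;> rcases sq9 y₀ with h2 | h2 | h2 | h2 <;>
      rcases sq9 z₀ with h3 | h3 | h3 | h3 <;> omega
  have hz3 : z₀ % 3 ≠ 0 := by
    rcases sq9 x₀ with h1 | h1 | h1 | h1 <;> rcases sq9 y₀ with h2 | h2 | h2 | h2 <;>
      rcases sq9 z₀ with h3 | h3 | h3 | h3 <;> omega
  obtain ⟨x, hx, hx1⟩ := norm x₀ hx3
  obtain ⟨y, hy, hy1⟩ := norm y₀ hy3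
  obtain ⟨z, hz, hz1⟩ := norm z₀ hz3
  rw [← hx, ← hy, ← hz] at h
  clear hx hy hz hx3 hy3 hz3
  -- from a pair `p ≡ q mod 9` and the rest `r`
  have fin : ∀ p q r : ℤ, (M : ℤ) = p ^ 2 + q ^ 2 + r ^ 2 → p % 3 = 1 → q % 3 = 1 → r % 3 = 1 →
      (p - q) % 9 = 0 → ¬ (p % 2 = r % 2 ∧ q % 2 = r % 2) →
      ∃ a b c : ℤ, (M : ℤ) = a ^ 2 + b ^ 2 + c ^ 2 ∧ a % 3 = 2 ∧ b % 3 = 1 ∧
        (a + c) % 9 = 0 ∧ (a + b) % 2 = 1 := by
    intro p q r h hp hq hr hpq hpar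
    by_cases h1 : p % 2 = r % 2
    · refine ⟨-q, r, p, by rw [h]; ring, by omega, hr, by omega, by omega⟩
    · refine ⟨-p, r, q, by rw [h]; ring, by omega, hr, by omega, by omega⟩
  have hpar : ¬ (x % 2 = z % 2 ∧ y % 2 = z % 2) := by
    rcases par x with h1 | h1 <;> rcases par y with h2 | h2 <;> rcases par z with h3 | h3 <;> omega
  rcases sq9 x with h1 | h1 | h1 | h1 <;> rcases sq9 y with h2 | h2 | h2 | h2 <;>
    rcases sq9 z with h3 | h3 | h3 | h3 <;>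
  first
    | omega
    | exact fin x y z h hx1 hy1 hz1 (by omega) (by omega)
    | exact fin x z y (by rw [h]; ring) hx1 hz1 hy1 (by omega) (by omega)
    | exact fin y z x (by rw [h]; ring) hy1 hz1 hx1 (by omega) (by omega)

set_option maxHeartbeats 4000000 in
/-- The family for `m = 5`. -/
theorem fam5 (g r : ℕ) (M : ℕ) (h9 : M % 9 = 6) (h4 : M % 4 = 1 ∨ M % 4 = 2)
    (h1 : 158 * M ≤ (36 * r + 9) ^ 2) (h2 : 36 * r ≤ 126 * g + 57)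
    (h3 : 50 * M ≤ (126 * g + 57 - 36 * r) ^ 2) (h4' : 50 * M ≤ (90 * g + 36 * r + 51) ^ 2) :
    RepS 5 (Finset.Icc 1 5) (45 + 210 * g ^ 2 + 187 * g + 324 * r ^ 2 + 81 * r + M) := by
  obtain ⟨a, b, c, hM, ha, hb, hac, hab⟩ := select5 M h9 h4
  have h1Z : (158 : ℤ) * M ≤ (36 * r + 9) ^ 2 := by exact_mod_cast h1
  have h3Z : (50 : ℤ) * M ≤ (126 * g + 57 - 36 * r) ^ 2 := by
    have : (50 : ℤ) * M ≤ ((126 * g + 57 - 36 * r : ℕ) : ℤ) ^ 2 := by exact_mod_cast h3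
    rwa [Nat.cast_sub h2] at this
  have h4Z : (50 : ℤ) * M ≤ (90 * g + 36 * r + 51) ^ 2 := by exact_mod_cast h4'
  have h2Z : (36 : ℤ) * r ≤ 126 * g + 57 := by exact_mod_cast h2
  have hg0 : (0 : ℤ) ≤ g := by positivity
  have hr0 : (0 : ℤ) ≤ r := by positivity
  -- bounds
  have b1 : |7 * a - 3 * b + 10 * c| ≤ 36 * r + 9 := by
    apply abs_le_of_sq_le_sq _ (by positivity)
    refine le_trans ?_ h1Z
    rw [hM]
    nlinarith [sq_nonneg (7 * b + 3 * a), sq_nonneg (7 * c - 10 * a), sq_nonneg (3 * c + 10 * b)]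
  have b3 : |a + 3 * b + c| ≤ 36 * r + 9 := by
    apply abs_le_of_sq_le_sq _ (by positivity)
    refine le_trans ?_ h1Z
    rw [hM]
    nlinarith [sq_nonneg (b - 3 * a), sq_nonneg (c - a), sq_nonneg (3 * c - b), sq_nonneg a,
      sq_nonneg b, sq_nonneg c]
  have b5 : |2 * a + 3 * b - c| ≤ 36 * r + 9 := by
    apply abs_le_of_sq_le_sq _ (by positivity)
    refine le_trans ?_ h1Z
    rw [hM]
    nlinarith [sq_nonneg (2 * b - 3 * a), sq_nonneg (2 * c + a), sq_nonneg (3 * c + b),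
      sq_nonneg a, sq_nonneg b, sq_nonneg c]
  have b2 : |5 * a - 3 * b - 4 * c| ≤ 126 * g + 57 - 36 * r := by
    apply abs_le_of_sq_le_sq _ (by linarith)
    refine le_trans ?_ h3Z
    rw [hM]
    nlinarith [sq_nonneg (5 * b + 3 * a), sq_nonneg (5 * c + 4 * a), sq_nonneg (3 * c - 4 * b)]
  have b4 : |5 * a - 3 * b - 4 * c| ≤ 90 * g + 36 * r + 51 := by
    apply abs_le_of_sq_le_sq _ (by positivity)
    refine le_trans ?_ h4Z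
    rw [hM]
    nlinarith [sq_nonneg (5 * b + 3 * a), sq_nonneg (5 * c + 4 * a), sq_nonneg (3 * c - 4 * b)]
  rw [abs_le] at b1 b2 b3 b4 b5
  obtain ⟨t, ht⟩ : ∃ t : ℤ, c = 9 * t - a := ⟨(a + c) / 9, by omega⟩
  obtain ⟨s, hs⟩ : ∃ s : ℤ, a = 3 * s - 1 := ⟨(a + 1) / 3, by omega⟩
  obtain ⟨u, hu⟩ : ∃ u : ℤ, b = 3 * u + 1 := ⟨b / 3, by omega⟩
  obtain ⟨x₁, hx₁⟩ : ∃ x : ℕ, 18 * (x : ℤ) = 7 * a - 3 * b + 10 * c + 36 * r + 9 := by
    refine ⟨((7 * a - 3 * b + 10 * c + 36 * r + 9) / 18).toNat, ?_⟩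
    have : (7 * a - 3 * b + 10 * c + 36 * r + 9) % 18 = 0 := by omega
    omega
  obtain ⟨x₃, hx₃⟩ : ∃ x : ℕ, 9 * (x : ℤ) = -a - 3 * b - c + 72 * r + 12 := by
    refine ⟨((-a - 3 * b - c + 72 * r + 12) / 9).toNat, ?_⟩
    have : (-a - 3 * b - c + 72 * r + 12) % 9 = 0 := by omega
    omega
  obtain ⟨x₅, hx₅⟩ : ∃ x : ℕ, 9 * (x : ℤ) = 2 * a + 3 * b - c + 45 * r + 9 := by
    refine ⟨((2 * a + 3 * b - c + 45 * r + 9) / 9).toNat, ?_⟩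
    have : (2 * a + 3 * b - c + 45 * r + 9) % 9 = 0 := by omega
    omega
  obtain ⟨x₂, hx₂⟩ : ∃ x : ℕ, 18 * (x : ℤ) = 5 * a - 3 * b - 4 * c - 36 * r + 126 * g + 57 := by
    refine ⟨((5 * a - 3 * b - 4 * c - 36 * r + 126 * g + 57) / 18).toNat, ?_⟩
    have : (5 * a - 3 * b - 4 * c - 36 * r + 126 * g + 57) % 18 = 0 := by omega
    omega
  obtain ⟨x₄, hx₄⟩ : ∃ x : ℕ, 18 * (x : ℤ) = -5 * a + 3 * b + 4 * c + 36 * r + 90 * g + 51 := by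
    refine ⟨((-5 * a + 3 * b + 4 * c + 36 * r + 90 * g + 51) / 18).toNat, ?_⟩
    have : (-5 * a + 3 * b + 4 * c + 36 * r + 90 * g + 51) % 18 = 0 := by omega
    omega
  refine ⟨fun i => if i = 1 then x₁ else if i = 2 then x₂ else if i = 3 then x₃ else
    if i = 4 then x₄ else x₅, ?_⟩
  have hIcc : Finset.Icc 1 5 = ({1, 2, 3, 4, 5} : Finset ℕ) := by decide
  rw [hIcc]
  rw [Finset.sum_insert (by decide), Finset.sum_insert (by decide), Finset.sum_insert (by decide),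
    Finset.sum_insert (by decide), Finset.sum_singleton]
  norm_num
  have p1 := polygonal_two_mul 4 x₁
  have p2 := polygonal_two_mul 5 x₂
  have p3 := polygonal_two_mul 6 x₃
  have p4 := polygonal_two_mul 7 x₄
  have p5 := polygonal_two_mul 8 x₅
  norm_num at p1 p2 p3 p4 p5
  have q1 : (x₁ : ℚ) = (7 * a - 3 * b + 10 * c + 36 * r + 9) / 18 := by
    have : (18 : ℚ) * x₁ = 7 * a - 3 * b + 10 * c + 36 * r + 9 := by exact_mod_cast hx₁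
    linarith
  have q2 : (x₂ : ℚ) = (5 * a - 3 * b - 4 * c - 36 * r + 126 * g + 57) / 18 := by
    have : (18 : ℚ) * x₂ = 5 * a - 3 * b - 4 * c - 36 * r + 126 * g + 57 := by exact_mod_cast hx₂
    linarith
  have q3 : (x₃ : ℚ) = (-a - 3 * b - c + 72 * r + 12) / 9 := by
    have : (9 : ℚ) * x₃ = -a - 3 * b - c + 72 * r + 12 := by exact_mod_cast hx₃
    linarith
  have q4 : (x₄ : ℚ) = (-5 * a + 3 * b + 4 * c + 36 * r + 90 * g + 51) / 18 := by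
    have : (18 : ℚ) * x₄ = -5 * a + 3 * b + 4 * c + 36 * r + 90 * g + 51 := by exact_mod_cast hx₄
    linarith
  have q5 : (x₅ : ℚ) = (2 * a + 3 * b - c + 45 * r + 9) / 9 := by
    have : (9 : ℚ) * x₅ = 2 * a + 3 * b - c + 45 * r + 9 := by exact_mod_cast hx₅
    linarith
  have p1Q : (2 : ℚ) * polygonal 6 x₁ = 4 * x₁ * (x₁ - 1) + 2 * x₁ := by exact_mod_cast p1
  have p2Q : (2 : ℚ) * polygonal 7 x₂ = 5 * x₂ * (x₂ - 1) + 2 * x₂ := by exact_mod_cast p2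
  have p3Q : (2 : ℚ) * polygonal 8 x₃ = 6 * x₃ * (x₃ - 1) + 2 * x₃ := by exact_mod_cast p3
  have p4Q : (2 : ℚ) * polygonal 9 x₄ = 7 * x₄ * (x₄ - 1) + 2 * x₄ := by exact_mod_cast p4
  have p5Q : (2 : ℚ) * polygonal 10 x₅ = 8 * x₅ * (x₅ - 1) + 2 * x₅ := by exact_mod_cast p5
  have hMQ : (M : ℚ) = a ^ 2 + b ^ 2 + c ^ 2 := by exact_mod_cast hM
  have goal : ((45 + 210 * g ^ 2 + 187 * g + 324 * r ^ 2 + 81 * r + M : ℕ) : ℚ) =
      ((polygonal 6 x₁ + (polygonal 7 x₂ + (polygonal 8 x₃ + (polygonal 9 x₄ + polygonal 10 x₅))) : ℕ) : ℚ) := by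
    push_cast
    rw [hMQ]
    have : (polygonal 6 x₁ : ℚ) + (polygonal 7 x₂ + (polygonal 8 x₃ + (polygonal 9 x₄ + polygonal 10 x₅))) =
      (2 * polygonal 6 x₁ + 2 * polygonal 7 x₂ + 2 * polygonal 8 x₃ + 2 * polygonal 9 x₄ +
        2 * polygonal 10 x₅) / 2 := by ring
    rw [this, p1Q, p2Q, p3Q, p4Q, p5Q, q1, q2, q3, q4, q5]
    ring
  exact_mod_cast goal

end Pool.H21.TS
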