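import Mathlib
import Pool.Agent.H21.TS.Five

/-! The case `m = 5`, completed: progressions and the finite check. -/

namespace Pool.H21.TS

/-- The check for one residue class modulo `36`. -/
def row5OK (A B N₀ ρ g r M₀ J : ℕ) : Bool :=
  let P₂ := 210 * A ^ 2 + 324 * B ^ 2
  let P₁ := 420 * A * g + 187 * A + (648 * B * r + 81 * B)
  let P₀ := 45 + M₀ + (210 * g ^ 2 + 187 * g) + (324 * r ^ 2 + 81 * r)
  let D := M₀ + 2 * P₂ * J + P₂ + P₁
  decide (0 < P₁) && decide (2 * P₂ % 36 = 0) && decide ((P₂ + P₁) % 36 = 0) &&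
  decide (P₀ % 36 = ρ) && decide (M₀ % 9 = 6) && decide (M₀ % 4 = 1 ∨ M₀ % 4 = 2) &&
  decide (P₂ * J ^ 2 + P₁ * J + P₀ ≤ N₀) &&
  decide (158 * D ≤ (36 * (B * J + r) + 9) ^ 2) &&
  decide (158 * (2 * P₂) ≤ 2 * (36 * B) * (36 * (B * J + r) + 9) + (36 * B) ^ 2) &&
  decide (36 * B ≤ 126 * A) && decide (36 * (B * J + r) ≤ 126 * (A * J + g) + 57) &&
  decide (50 * D ≤ (126 * (A * J + g) + 57 - 36 * (B * J + r)) ^ 2) &&
  decide (50 * (2 * P₂) ≤ 2 * (126 * A - 36 * B) * (126 * (A * J + g) + 57 - 36 * (B * J + r)) +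
    (126 * A - 36 * B) ^ 2) &&
  decide (50 * D ≤ (90 * (A * J + g) + 36 * (B * J + r) + 51) ^ 2) &&
  decide (50 * (2 * P₂) ≤ 2 * (90 * A + 36 * B) * (90 * (A * J + g) + 36 * (B * J + r) + 51) +
    (90 * A + 36 * B) ^ 2)

/-- Growth of a quadratic against a linear function. -/
theorem growth2 (K D s E F : ℕ) (h0 : K * D ≤ F ^ 2) (h1 : K * s ≤ 2 * E * F + E ^ 2) (t : ℕ) :
    K * (D + s * t) ≤ (E * t + F) ^ 2 := by
  induction t with
  | zero => simpa using h0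
  | succ t ih =>
    have e1 : K * (D + s * (t + 1)) = K * (D + s * t) + K * s := by ring
    have e2 : (E * (t + 1) + F) ^ 2 = (E * t + F) ^ 2 + (2 * E * F + E ^ 2) + 2 * E ^ 2 * t := by
      ring
    rw [e1, e2]
    have : 0 ≤ 2 * E ^ 2 * t := Nat.zero_le _
    omega

set_option maxHeartbeats 4000000 in
theorem row5_spec {A B N₀ ρ g r M₀ J : ℕ} (h : row5OK A B N₀ ρ g r M₀ J = true) (n : ℕ)
    (hn : N₀ ≤ n) (hρ : n % 36 = ρ) : RepS 5 (Finset.Icc 1 5) n := by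
  unfold row5OK at h
  simp only [Bool.and_eq_true, decide_eq_true_eq] at h
  set P₂ := 210 * A ^ 2 + 324 * B ^ 2 with hP₂
  set P₁ := 420 * A * g + 187 * A + (648 * B * r + 81 * B) with hP₁
  set P₀ := 45 + M₀ + (210 * g ^ 2 + 187 * g) + (324 * r ^ 2 + 81 * r) with hP₀
  set D := M₀ + 2 * P₂ * J + P₂ + P₁ with hD
  obtain ⟨⟨⟨⟨⟨⟨⟨⟨⟨⟨⟨⟨⟨⟨hpos, hm2⟩, hm1⟩, hm0⟩, hM9⟩, hM4⟩, hJ⟩, g1⟩, s1⟩, hAB⟩, hle⟩, g2⟩, s2⟩, g3⟩,
    s3⟩ := h
  have hmono : Monotone (fun j : ℕ => P₂ * j ^ 2 + P₁ * j + P₀) := by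
    intro x y hxy
    show P₂ * x ^ 2 + P₁ * x + P₀ ≤ P₂ * y ^ 2 + P₁ * y + P₀
    gcongr
  have hex : ∃ j : ℕ, n < P₂ * j ^ 2 + P₁ * j + P₀ := by
    refine ⟨n + 1, ?_⟩
    have h1 : n + 1 ≤ P₁ * (n + 1) := Nat.le_mul_of_pos_left _ hpos
    have h2 : 0 ≤ P₂ * (n + 1) ^ 2 := Nat.zero_le _
    omega
  classical
  set j₁ := Nat.find hex with hj₁
  have hj₁s := Nat.find_spec hex
  rw [← hj₁] at hj₁s
  have hgt : J < j₁ := by
    by_contra hle
    push Not at hle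
    have h1 : P₂ * j₁ ^ 2 + P₁ * j₁ + P₀ ≤ P₂ * J ^ 2 + P₁ * J + P₀ := hmono hle
    omega
  obtain ⟨j, hj⟩ : ∃ j, j₁ = j + 1 := ⟨j₁ - 1, by omega⟩
  have hjn : P₂ * j ^ 2 + P₁ * j + P₀ ≤ n := by
    by_contra hlt
    push Not at hlt
    exact Nat.find_min hex (by omega : j < j₁) hlt
  rw [hj] at hj₁s
  obtain ⟨t, ht⟩ : ∃ t, j = J + t := ⟨j - J, by omega⟩
  have hstep : P₂ * (j + 1) ^ 2 + P₁ * (j + 1) + P₀ =
      P₂ * j ^ 2 + P₁ * j + P₀ + (2 * P₂ * j + P₂ + P₁) := by ring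
  have hres : ∀ j : ℕ, (P₂ * j ^ 2 + P₁ * j + P₀) % 36 = ρ := by
    intro j
    induction j with
    | zero => simpa using hm0
    | succ j ih =>
      have e : P₂ * (j + 1) ^ 2 + P₁ * (j + 1) + P₀ =
        P₂ * j ^ 2 + P₁ * j + P₀ + ((2 * P₂) * j + (P₂ + P₁)) := by ring
      obtain ⟨x, hx⟩ := Nat.dvd_of_mod_eq_zero hm2
      obtain ⟨y, hy⟩ := Nat.dvd_of_mod_eq_zero hm1
      rw [e, hx, hy]
      have : 36 * x * j + 36 * y = 36 * (x * j + y) := by ring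
      rw [this, Nat.add_mul_mod_self_left, ih]
  have hdiv : 36 ∣ n - (P₂ * j ^ 2 + P₁ * j + P₀) := by
    apply (Nat.modEq_iff_dvd' hjn).mp
    unfold Nat.ModEq
    rw [hres j, hρ]
  obtain ⟨T, hT⟩ := hdiv
  have hMle : M₀ + 36 * T ≤ D + 2 * P₂ * t := by
    have e : M₀ + (2 * P₂ * j + P₂ + P₁) = D + 2 * P₂ * t := by rw [hD, ht]; ring
    omega
  have hgJ : A * j + g = A * t + (A * J + g) := by rw [ht]; ring
  have hrJ : B * j + r = B * t + (B * J + r) := by rw [ht]; ring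
  have k1 := growth2 158 D (2 * P₂) (36 * B) (36 * (B * J + r) + 9) g1 s1 t
  have k2 := growth2 50 D (2 * P₂) (126 * A - 36 * B)
    (126 * (A * J + g) + 57 - 36 * (B * J + r)) g2 s2 t
  have k3 := growth2 50 D (2 * P₂) (90 * A + 36 * B)
    (90 * (A * J + g) + 36 * (B * J + r) + 51) g3 s3 t
  have e2 : 126 * (A * j + g) + 57 - 36 * (B * j + r) =
      (126 * A - 36 * B) * t + (126 * (A * J + g) + 57 - 36 * (B * J + r)) := by
    rw [hgJ, hrJ]
    have : 36 * B * t ≤ 126 * A * t := Nat.mul_le_mul_right _ hAB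
    zify [hAB, hle, show 36 * (B * t + (B * J + r)) ≤ 126 * (A * t + (A * J + g)) + 57 by
      have e1 : 36 * (B * t + (B * J + r)) = 36 * B * t + 36 * (B * J + r) := by ring
      have e2 : 126 * (A * t + (A * J + g)) + 57 = 126 * A * t + (126 * (A * J + g) + 57) := by ring
      rw [e1, e2]; omega]
    ring
  have hle2 : 36 * (B * j + r) ≤ 126 * (A * j + g) + 57 := by
    rw [hgJ, hrJ]
    have : 36 * B * t ≤ 126 * A * t := Nat.mul_le_mul_right _ hAB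
    have e1 : 36 * (B * t + (B * J + r)) = 36 * B * t + 36 * (B * J + r) := by ring
    have e2 : 126 * (A * t + (A * J + g)) + 57 = 126 * A * t + (126 * (A * J + g) + 57) := by ring
    rw [e1, e2]; omega
  have f := fam5 (A * j + g) (B * j + r) (M₀ + 36 * T) (by omega) (by omega)
    (by
      have e : 36 * (B * j + r) + 9 = 36 * B * t + (36 * (B * J + r) + 9) := by rw [hrJ]; ring
      rw [e]
      exact le_trans (Nat.mul_le_mul_left _ hMle) k1)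
    hle2
    (by
      rw [e2]
      exact le_trans (Nat.mul_le_mul_left _ hMle) k2)
    (by
      have e : 90 * (A * j + g) + 36 * (B * j + r) + 51 =
        (90 * A + 36 * B) * t + (90 * (A * J + g) + 36 * (B * J + r) + 51) := by
        rw [hgJ, hrJ]; ring
      rw [e]
      exact le_trans (Nat.mul_le_mul_left _ hMle) k3)
  have hn' : n = P₂ * j ^ 2 + P₁ * j + P₀ + 36 * T := by omega
  rw [hn', hP₂, hP₁, hP₀]
  convert f using 1
  ring

/-- Rows for `m = 5`. -/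
def tab5 : List (ℕ × ℕ × ℕ × ℕ) :=
  [(3, 10, 6, 113), (4, 10, 6, 113), (8, 3, 6, 114), (6, 10, 6, 113), (7, 10, 6, 113), (2, 8, 6, 113), (0, 7, 6, 113), (1, 7, 6, 113), (5, 8, 6, 113), (3, 8, 33, 113), (4, 8, 33, 113), (8, 9, 33, 113), (6, 0, 33, 114), (7, 0, 33, 114), (2, 9, 6, 113), (0, 8, 6, 113), (1, 8, 6, 113), (5, 9, 6, 113), (3, 8, 6, 113), (4, 8, 6, 113), (8, 9, 6, 113), (6, 9, 33, 113), (7, 9, 33, 113), (2, 7, 33, 113), (0, 9, 6, 113), (1, 9, 6, 113), (5, 10, 6, 113), (3, 9, 6, 113), (4, 9, 6, 113), (8, 10, 6, 113), (6, 9, 6, 113), (7, 9, 6, 113), (2, 7, 6, 113), (0, 7, 33, 113), (1, 7, 33, 113), (5, 8, 33, 113)]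

theorem rows5 : ∀ ρ < 36, row5OK 9 11 736753863 ρ
    (tab5.getD ρ (0, 0, 0, 0)).1 (tab5.getD ρ (0, 0, 0, 0)).2.1 (tab5.getD ρ (0, 0, 0, 0)).2.2.1
    (tab5.getD ρ (0, 0, 0, 0)).2.2.2 = true := by decide +kernel

theorem large5 (n : ℕ) (hn : 736753863 ≤ n) : RepS 5 (Finset.Icc 1 5) n :=
  row5_spec (rows5 (n % 36) (Nat.mod_lt _ (by norm_num))) n hn rfl

theorem base5 (r : ℕ) (h1 : 6 ≤ r) (h2 : r < 109000) : RepS 5 (Finset.Icc 1 4) r :=
  rep_of_check 5 109000 [(1, 233), (2, 209), (3, 190), (4, 176)]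
    (Finset.Icc 1 4) 6 109000 (by decide) (by decide) (by decide +kernel) r h1 h2

theorem small5 (n : ℕ) (hn : n < 736753863) : RepS 5 (Finset.Icc 1 5) n := by
  by_cases h : n < 11
  · exact rep_of_check 5 11 [(1, 2), (2, 2), (3, 2), (4, 2), (5, 2)]
      (Finset.Icc 1 5) 0 11 (by decide) (by decide) (by decide +kernel) n (Nat.zero_le _) h
  · have h2 := extend (m := 5) (i := 5) (T := Finset.Icc 1 4) (by decide) 6 109000 base5 13625
      (by norm_num) n (by omega) (by norm_num [polygonal]; omega)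
    exact h2.mono (by decide)

theorem case5 (n : ℕ) : RepS 5 (Finset.Icc 1 5) n := by
  rcases lt_or_ge n 736753863 with h | h
  · exact small5 n h
  · exact large5 n h

end Pool.H21.TS
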