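import Mathlib
import Pool.Agent.H21.TS.Fam

/-! The cases `6 ≤ m ≤ 14`. -/

namespace Pool.H21.TS

/-- Rows for `m = 6`. -/
def tab6 : List (ℕ × ℕ × ℕ × ℕ) :=
  [(4, 0, 0, 0), (1, 2, 0, 0), (3, 1, 0, 0), (0, 0, 0, 0), (2, 2, 0, 0), (4, 1, 0, 0), (1, 0, 0, 0), (3, 2, 0, 0), (0, 1, 0, 0), (2, 0, 0, 0), (4, 2, 0, 0), (1, 1, 0, 0), (3, 0, 0, 0), (0, 2, 0, 0), (2, 1, 0, 0)]

theorem rows6 : ∀ ρ < 15, rowOK 15 2 15 3 3 45 5 8 420 15 5 3 1 6 50756 ρ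
    (tab6.getD ρ (0, 0, 0, 0)).1 (tab6.getD ρ (0, 0, 0, 0)).2.1 (tab6.getD ρ (0, 0, 0, 0)).2.2.1
    (tab6.getD ρ (0, 0, 0, 0)).2.2.2 = true := by decide +kernel

theorem rest6 : ∀ ρ < 15, RepS 6 (∅ : Finset ℕ) (tab6.getD ρ (0, 0, 0, 0)).2.2.2 := by
  have h : ∀ ρ < 15, (tab6.getD ρ (0, 0, 0, 0)).2.2.2 = 0 := by decide +kernel
  intro ρ hρ
  rw [h ρ hρ]
  exact RepS.zero _ _

theorem large6 (n : ℕ) (hn : 50756 ≤ n) : RepS 6 (Finset.Icc 1 6) n := by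
  have hρ : n % 15 < 15 := Nat.mod_lt _ (by norm_num)
  obtain ⟨a, b, c, T, ha, hb, hc, hT⟩ := row_spec (by norm_num) (rows6 _ hρ) n hn rfl
  have p₁ : PairData 6 15 1 6 1 2 15 3 := by constructor <;> norm_num
  have p₂ : PairData 6 15 2 5 2 3 45 5 := by constructor <;> norm_num
  have p₃ : PairData 6 15 3 4 7 8 420 15 := by constructor <;> norm_num
  have := tri_rep p₁ p₂ p₃ (L := (∅ : Finset ℕ)) (by decide) (by decide) (by decide) (rest6 _ hρ)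
    a b c T ha hb hc
  rw [← hT] at this
  exact this.mono (by decide)

theorem small6 (n : ℕ) (hn : n < 50756) : RepS 6 (Finset.Icc 1 6) n := by
  by_cases h : n < 12
  · exact rep_of_check 6 12 [(1, 2), (2, 2), (3, 2), (4, 2), (5, 2), (6, 1)]
      (Finset.Icc 1 6) 0 12 (by decide) (by decide) (by decide +kernel) n (Nat.zero_le _) h
  · have h1 : ∀ r, 7 ≤ r → r < 1500 → RepS 6 (Finset.Icc 1 5) r := fun r hr1 hr2 =>
      rep_of_check 6 1500 [(1, 24), (2, 22), (3, 21), (4, 19), (5, 18)]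
        (Finset.Icc 1 5) 7 1500 (by decide) (by decide) (by decide +kernel) r hr1 hr2
    have h2 := extend (m := 6) (i := 6) (T := Finset.Icc 1 5) (by decide) 7 1500 h1 150
      (by norm_num) n (by omega) (by norm_num [polygonal]; omega)
    exact h2.mono (by decide)

theorem case6 (n : ℕ) : RepS 6 (Finset.Icc 1 6) n := by
  rcases lt_or_ge n 50756 with h | h
  · exact small6 n h
  · exact large6 n h

/-- Rows for `m = 7`. -/
def tab7 : List (ℕ × ℕ × ℕ × ℕ) :=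
  [(2, 0, 1, 0), (2, 0, 1, 1), (2, 0, 0, 11), (0, 0, 0, 0), (0, 0, 0, 1), (0, 0, 1, 11), (1, 0, 0, 0), (1, 0, 0, 1), (1, 0, 1, 11), (2, 0, 0, 0), (2, 0, 0, 1), (2, 0, 1, 11), (0, 0, 1, 0), (0, 0, 1, 1), (0, 0, 0, 11), (1, 0, 1, 0), (1, 0, 1, 1), (1, 0, 0, 11)]

theorem rows7 : ∀ ρ < 18, rowOK 18 2 18 3 11 693 18 5 180 9 12 2 4 6 311538 ρ
    (tab7.getD ρ (0, 0, 0, 0)).1 (tab7.getD ρ (0, 0, 0, 0)).2.1 (tab7.getD ρ (0, 0, 0, 0)).2.2.1
    (tab7.getD ρ (0, 0, 0, 0)).2.2.2 = true := by decide +kernel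

theorem rest7 : ∀ ρ < 18, RepS 7 ({4} : Finset ℕ) (tab7.getD ρ (0, 0, 0, 0)).2.2.2 := by
  have h : ∀ ρ < 18, (maskL 40 7 [(4, 3)]).testBit (tab7.getD ρ (0, 0, 0, 0)).2.2.2 = true := by
    decide +kernel
  intro ρ hρ
  have := maskL_spec 40 7 [(4, 3)] (by decide) _ (h ρ hρ)
  simpa using this

theorem large7 (n : ℕ) (hn : 311538 ≤ n) : RepS 7 (Finset.Icc 1 7) n := by
  have hρ : n % 18 < 18 := Nat.mod_lt _ (by norm_num)
  obtain ⟨a, b, c, T, ha, hb, hc, hT⟩ := row_spec (by norm_num) (rows7 _ hρ) n hn rfl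
  have p₁ : PairData 7 18 1 7 1 2 18 3 := by constructor <;> norm_num
  have p₂ : PairData 7 18 2 6 7 11 693 18 := by constructor <;> norm_num
  have p₃ : PairData 7 18 3 5 4 5 180 9 := by constructor <;> norm_num
  have := tri_rep p₁ p₂ p₃ (L := ({4} : Finset ℕ)) (by decide) (by decide) (by decide) (rest7 _ hρ)
    a b c T ha hb hc
  rw [← hT] at this
  exact this.mono (by decide)

theorem small7 (n : ℕ) (hn : n < 311538) : RepS 7 (Finset.Icc 1 7) n := by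
  by_cases h : n < 13
  · exact rep_of_check 7 13 [(1, 2), (2, 2), (3, 2), (4, 2), (5, 2), (6, 1), (7, 1)]
      (Finset.Icc 1 7) 0 13 (by decide) (by decide) (by decide +kernel) n (Nat.zero_le _) h
  · have h1 : ∀ r, 8 ≤ r → r < 3000 → RepS 7 (Finset.Icc 1 6) r := fun r hr1 hr2 =>
      rep_of_check 7 3000 [(1, 31), (2, 29), (3, 27), (4, 26), (5, 24), (6, 23)]
        (Finset.Icc 1 6) 8 3000 (by decide) (by decide) (by decide +kernel) r hr1 hr2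
    have h2 := extend (m := 7) (i := 7) (T := Finset.Icc 1 6) (by decide) 8 3000 h1 250
      (by norm_num) n (by omega) (by norm_num [polygonal]; omega)
    exact h2.mono (by decide)

theorem case7 (n : ℕ) : RepS 7 (Finset.Icc 1 7) n := by
  rcases lt_or_ge n 311538 with h | h
  · exact small7 n h
  · exact large7 n h

/-- Rows for `m = 8`. -/
def tab8 : List (ℕ × ℕ × ℕ × ℕ) :=
  [(6, 0, 0, 0), (4, 0, 1, 0), (2, 0, 2, 0), (0, 0, 0, 0), (5, 0, 1, 0), (3, 0, 2, 0), (1, 0, 0, 0), (6, 0, 1, 0), (4, 0, 2, 0), (2, 0, 0, 0), (0, 0, 1, 0), (5, 0, 2, 0), (3, 0, 0, 0), (1, 0, 1, 0), (6, 0, 2, 0), (4, 0, 0, 0), (2, 0, 1, 0), (0, 0, 2, 0), (5, 0, 0, 0), (3, 0, 1, 0), (1, 0, 2, 0)]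

theorem rows8 : ∀ ρ < 21, rowOK 21 2 21 3 13 1092 21 4 126 7 7 1 3 5 99366 ρ
    (tab8.getD ρ (0, 0, 0, 0)).1 (tab8.getD ρ (0, 0, 0, 0)).2.1 (tab8.getD ρ (0, 0, 0, 0)).2.2.1
    (tab8.getD ρ (0, 0, 0, 0)).2.2.2 = true := by decide +kernel

theorem rest8 : ∀ ρ < 21, RepS 8 ({4, 5} : Finset ℕ) (tab8.getD ρ (0, 0, 0, 0)).2.2.2 := by
  have h : ∀ ρ < 21, (tab8.getD ρ (0, 0, 0, 0)).2.2.2 = 0 := by decide +kernel
  intro ρ hρ
  rw [h ρ hρ]
  exact RepS.zero _ _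

theorem large8 (n : ℕ) (hn : 99366 ≤ n) : RepS 8 (Finset.Icc 1 8) n := by
  have hρ : n % 21 < 21 := Nat.mod_lt _ (by norm_num)
  obtain ⟨a, b, c, T, ha, hb, hc, hT⟩ := row_spec (by norm_num) (rows8 _ hρ) n hn rfl
  have p₁ : PairData 8 21 1 8 1 2 21 3 := by constructor <;> norm_num
  have p₂ : PairData 8 21 2 7 8 13 1092 21 := by constructor <;> norm_num
  have p₃ : PairData 8 21 3 6 3 4 126 7 := by constructor <;> norm_num
  have := tri_rep p₁ p₂ p₃ (L := ({4, 5} : Finset ℕ)) (by decide) (by decide) (by decide) (rest8 _ hρ)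
    a b c T ha hb hc
  rw [← hT] at this
  exact this.mono (by decide)

theorem small8 (n : ℕ) (hn : n < 99366) : RepS 8 (Finset.Icc 1 8) n := by
  by_cases h : n < 14
  · exact rep_of_check 8 14 [(1, 2), (2, 2), (3, 2), (4, 2), (5, 2), (6, 1), (7, 1), (8, 1)]
      (Finset.Icc 1 8) 0 14 (by decide) (by decide) (by decide +kernel) n (Nat.zero_le _) h
  · have h1 : ∀ r, 9 ≤ r → r < 2000 → RepS 8 (Finset.Icc 1 7) r := fun r hr1 hr2 =>
      rep_of_check 8 2000 [(1, 24), (2, 22), (3, 21), (4, 20), (5, 19), (6, 18), (7, 17)]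
        (Finset.Icc 1 7) 9 2000 (by decide) (by decide) (by decide +kernel) r hr1 hr2
    have h2 := extend (m := 8) (i := 8) (T := Finset.Icc 1 7) (by decide) 9 2000 h1 143
      (by norm_num) n (by omega) (by norm_num [polygonal]; omega)
    exact h2.mono (by decide)

theorem case8 (n : ℕ) : RepS 8 (Finset.Icc 1 8) n := by
  rcases lt_or_ge n 99366 with h | h
  · exact small8 n h
  · exact large8 n h

/-- Rows for `m = 9`. -/
def tab9 : List (ℕ × ℕ × ℕ × ℕ) :=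
  [(3, 3, 0, 0), (2, 2, 0, 0), (1, 1, 0, 0), (0, 0, 0, 0), (3, 2, 0, 0), (2, 1, 0, 0), (1, 0, 0, 0), (0, 5, 0, 0), (3, 1, 0, 0), (2, 0, 0, 0), (1, 5, 0, 0), (0, 4, 0, 0), (3, 0, 0, 0), (2, 5, 0, 0), (1, 4, 0, 0), (0, 3, 0, 0), (3, 5, 0, 0), (2, 4, 0, 0), (1, 3, 0, 0), (0, 2, 0, 0), (3, 4, 0, 0), (2, 3, 0, 0), (1, 2, 0, 0), (0, 1, 0, 0)]

theorem rows9 : ∀ ρ < 24, rowOK 24 2 24 3 5 180 8 7 420 12 16 6 4 5 554609 ρ
    (tab9.getD ρ (0, 0, 0, 0)).1 (tab9.getD ρ (0, 0, 0, 0)).2.1 (tab9.getD ρ (0, 0, 0, 0)).2.2.1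
    (tab9.getD ρ (0, 0, 0, 0)).2.2.2 = true := by decide +kernel

theorem rest9 : ∀ ρ < 24, RepS 9 ({4, 5, 6} : Finset ℕ) (tab9.getD ρ (0, 0, 0, 0)).2.2.2 := by
  have h : ∀ ρ < 24, (tab9.getD ρ (0, 0, 0, 0)).2.2.2 = 0 := by decide +kernel
  intro ρ hρ
  rw [h ρ hρ]
  exact RepS.zero _ _

theorem large9 (n : ℕ) (hn : 554609 ≤ n) : RepS 9 (Finset.Icc 1 9) n := by
  have hρ : n % 24 < 24 := Nat.mod_lt _ (by norm_num)
  obtain ⟨a, b, c, T, ha, hb, hc, hT⟩ := row_spec (by norm_num) (rows9 _ hρ) n hn rfl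
  have p₁ : PairData 9 24 1 9 1 2 24 3 := by constructor <;> norm_num
  have p₂ : PairData 9 24 2 8 3 5 180 8 := by constructor <;> norm_num
  have p₃ : PairData 9 24 3 7 5 7 420 12 := by constructor <;> norm_num
  have := tri_rep p₁ p₂ p₃ (L := ({4, 5, 6} : Finset ℕ)) (by decide) (by decide) (by decide) (rest9 _ hρ)
    a b c T ha hb hc
  rw [← hT] at this
  exact this.mono (by decide)

theorem small9 (n : ℕ) (hn : n < 554609) : RepS 9 (Finset.Icc 1 9) n := by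
  by_cases h : n < 15
  · exact rep_of_check 9 15 [(1, 2), (2, 2), (3, 2), (4, 2), (5, 2), (6, 1), (7, 1), (8, 1), (9, 1)]
      (Finset.Icc 1 9) 0 15 (by decide) (by decide) (by decide +kernel) n (Nat.zero_le _) h
  · have h1 : ∀ r, 10 ≤ r → r < 4500 → RepS 9 (Finset.Icc 1 8) r := fun r hr1 hr2 =>
      rep_of_check 9 4500 [(1, 33), (2, 32), (3, 30), (4, 29), (5, 27), (6, 26), (7, 25), (8, 24)]
        (Finset.Icc 1 8) 10 4500 (by decide) (by decide) (by decide +kernel) r hr1 hr2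
    have h2 := extend (m := 9) (i := 9) (T := Finset.Icc 1 8) (by decide) 10 4500 h1 281
      (by norm_num) n (by omega) (by norm_num [polygonal]; omega)
    exact h2.mono (by decide)

theorem case9 (n : ℕ) : RepS 9 (Finset.Icc 1 9) n := by
  rcases lt_or_ge n 554609 with h | h
  · exact small9 n h
  · exact large9 n h

/-- Rows for `m = 10`. -/
def tab10 : List (ℕ × ℕ × ℕ × ℕ) :=
  [(8, 0, 0, 0), (8, 0, 0, 1), (8, 0, 0, 2), (0, 0, 0, 0), (0, 0, 0, 1), (0, 0, 0, 2), (1, 0, 0, 0), (1, 0, 0, 1), (1, 0, 0, 2), (2, 0, 0, 0), (2, 0, 0, 1), (2, 0, 0, 2), (3, 0, 0, 0), (3, 0, 0, 1), (3, 0, 0, 2), (4, 0, 0, 0), (4, 0, 0, 1), (4, 0, 0, 2), (5, 0, 0, 0), (5, 0, 0, 1), (5, 0, 0, 2), (6, 0, 0, 0), (6, 0, 0, 1), (6, 0, 0, 2), (7, 0, 0, 0), (7, 0, 0, 1), (7, 0, 0, 2)]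

theorem rows10 : ∀ ρ < 27, rowOK 27 2 27 3 17 2295 27 16 2376 27 9 1 1 5 193053 ρ
    (tab10.getD ρ (0, 0, 0, 0)).1 (tab10.getD ρ (0, 0, 0, 0)).2.1 (tab10.getD ρ (0, 0, 0, 0)).2.2.1
    (tab10.getD ρ (0, 0, 0, 0)).2.2.2 = true := by decide +kernel

theorem rest10 : ∀ ρ < 27, RepS 10 ({4, 5, 6, 7} : Finset ℕ) (tab10.getD ρ (0, 0, 0, 0)).2.2.2 := by
  have h : ∀ ρ < 27, (tab10.getD ρ (0, 0, 0, 0)).2.2.2 ≤ 2 := by decide +kernel
  intro ρ hρ
  exact RepS.ones (le_trans (h ρ hρ) (by decide))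

theorem large10 (n : ℕ) (hn : 193053 ≤ n) : RepS 10 (Finset.Icc 1 10) n := by
  have hρ : n % 27 < 27 := Nat.mod_lt _ (by norm_num)
  obtain ⟨a, b, c, T, ha, hb, hc, hT⟩ := row_spec (by norm_num) (rows10 _ hρ) n hn rfl
  have p₁ : PairData 10 27 1 10 1 2 27 3 := by constructor <;> norm_num
  have p₂ : PairData 10 27 2 9 10 17 2295 27 := by constructor <;> norm_num
  have p₃ : PairData 10 27 3 8 11 16 2376 27 := by constructor <;> norm_num
  have := tri_rep p₁ p₂ p₃ (L := ({4, 5, 6, 7} : Finset ℕ)) (by decide) (by decide) (by decide) (rest10 _ hρ)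
    a b c T ha hb hc
  rw [← hT] at this
  exact this.mono (by decide)

theorem small10 (n : ℕ) (hn : n < 193053) : RepS 10 (Finset.Icc 1 10) n := by
  by_cases h : n < 16
  · exact rep_of_check 10 16 [(1, 2), (2, 2), (3, 2), (4, 2), (5, 2), (6, 1), (7, 1), (8, 1), (9, 1), (10, 1)]
      (Finset.Icc 1 10) 0 16 (by decide) (by decide) (by decide +kernel) n (Nat.zero_le _) h
  · have h1 : ∀ r, 11 ≤ r → r < 3000 → RepS 10 (Finset.Icc 1 9) r := fun r hr1 hr2 =>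
      rep_of_check 10 3000 [(1, 26), (2, 24), (3, 23), (4, 22), (5, 21), (6, 21), (7, 20), (8, 19), (9, 19)]
        (Finset.Icc 1 9) 11 3000 (by decide) (by decide) (by decide +kernel) r hr1 hr2
    have h2 := extend (m := 10) (i := 10) (T := Finset.Icc 1 9) (by decide) 11 3000 h1 167
      (by norm_num) n (by omega) (by norm_num [polygonal]; omega)
    exact h2.mono (by decide)

theorem case10 (n : ℕ) : RepS 10 (Finset.Icc 1 10) n := by
  rcases lt_or_ge n 193053 with h | h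
  · exact small10 n h
  · exact large10 n h

/-- Rows for `m = 11`. -/
def tab11 : List (ℕ × ℕ × ℕ × ℕ) :=
  [(4, 0, 1, 0), (1, 2, 1, 0), (3, 1, 1, 0), (0, 0, 0, 0), (2, 2, 1, 0), (4, 1, 1, 0), (1, 0, 0, 0), (3, 2, 1, 0), (0, 1, 0, 0), (2, 0, 0, 0), (4, 2, 1, 0), (1, 1, 0, 0), (3, 0, 0, 0), (0, 2, 0, 0), (2, 1, 0, 0), (4, 0, 0, 0), (1, 2, 0, 0), (3, 1, 0, 0), (0, 0, 1, 0), (2, 2, 0, 0), (4, 1, 0, 0), (1, 0, 1, 0), (3, 2, 0, 0), (0, 1, 1, 0), (2, 0, 1, 0), (4, 2, 0, 0), (1, 1, 1, 0), (3, 0, 1, 0), (0, 2, 1, 0), (2, 1, 1, 0)]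

theorem rows11 : ∀ ρ < 30, rowOK 30 2 30 3 3 90 5 8 840 15 10 6 2 6 395381 ρ
    (tab11.getD ρ (0, 0, 0, 0)).1 (tab11.getD ρ (0, 0, 0, 0)).2.1 (tab11.getD ρ (0, 0, 0, 0)).2.2.1
    (tab11.getD ρ (0, 0, 0, 0)).2.2.2 = true := by decide +kernel

theorem rest11 : ∀ ρ < 30, RepS 11 ({2, 4, 6, 8, 10} : Finset ℕ) (tab11.getD ρ (0, 0, 0, 0)).2.2.2 := by
  have h : ∀ ρ < 30, (tab11.getD ρ (0, 0, 0, 0)).2.2.2 = 0 := by decide +kernel
  intro ρ hρ
  rw [h ρ hρ]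
  exact RepS.zero _ _

theorem large11 (n : ℕ) (hn : 395381 ≤ n) : RepS 11 (Finset.Icc 1 11) n := by
  have hρ : n % 30 < 30 := Nat.mod_lt _ (by norm_num)
  obtain ⟨a, b, c, T, ha, hb, hc, hT⟩ := row_spec (by norm_num) (rows11 _ hρ) n hn rfl
  have p₁ : PairData 11 30 1 11 1 2 30 3 := by constructor <;> norm_num
  have p₂ : PairData 11 30 3 9 2 3 90 5 := by constructor <;> norm_num
  have p₃ : PairData 11 30 5 7 7 8 840 15 := by constructor <;> norm_num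
  have := tri_rep p₁ p₂ p₃ (L := ({2, 4, 6, 8, 10} : Finset ℕ)) (by decide) (by decide) (by decide) (rest11 _ hρ)
    a b c T ha hb hc
  rw [← hT] at this
  exact this.mono (by decide)

theorem small11 (n : ℕ) (hn : n < 395381) : RepS 11 (Finset.Icc 1 11) n := by
  by_cases h : n < 17
  · exact rep_of_check 11 17 [(1, 2), (2, 2), (3, 2), (4, 2), (5, 2), (6, 1), (7, 1), (8, 1), (9, 1), (10, 1), (11, 1)]
      (Finset.Icc 1 11) 0 17 (by decide) (by decide) (by decide +kernel) n (Nat.zero_le _) h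
  · have h1 : ∀ r, 12 ≤ r → r < 4000 → RepS 11 (Finset.Icc 1 10) r := fun r hr1 hr2 =>
      rep_of_check 11 4000 [(1, 28), (2, 27), (3, 26), (4, 25), (5, 24), (6, 23), (7, 22), (8, 22), (9, 21), (10, 20)]
        (Finset.Icc 1 10) 12 4000 (by decide) (by decide) (by decide +kernel) r hr1 hr2
    have h2 := extend (m := 11) (i := 11) (T := Finset.Icc 1 10) (by decide) 12 4000 h1 200
      (by norm_num) n (by omega) (by norm_num [polygonal]; omega)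
    exact h2.mono (by decide)

theorem case11 (n : ℕ) : RepS 11 (Finset.Icc 1 11) n := by
  rcases lt_or_ge n 395381 with h | h
  · exact small11 n h
  · exact large11 n h

/-- Rows for `m = 12`. -/
def tab12 : List (ℕ × ℕ × ℕ × ℕ) :=
  [(10, 0, 0, 0), (10, 0, 0, 1), (10, 0, 0, 2), (0, 0, 0, 0), (0, 0, 0, 1), (0, 0, 0, 2), (1, 0, 0, 0), (1, 0, 0, 1), (1, 0, 0, 2), (2, 0, 0, 0), (2, 0, 0, 1), (2, 0, 0, 2), (3, 0, 0, 0), (3, 0, 0, 1), (3, 0, 0, 2), (4, 0, 0, 0), (4, 0, 0, 1), (4, 0, 0, 2), (5, 0, 0, 0), (5, 0, 0, 1), (5, 0, 0, 2), (6, 0, 0, 0), (6, 0, 0, 1), (6, 0, 0, 2), (7, 0, 0, 0), (7, 0, 0, 1), (7, 0, 0, 2), (8, 0, 0, 0), (8, 0, 0, 1), (8, 0, 0, 2), (9, 0, 0, 0), (9, 0, 0, 1), (9, 0, 0, 2)]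

theorem rows12 : ∀ ρ < 33, rowOK 33 2 33 3 20 4290 33 19 4389 33 11 1 1 5 356931 ρ
    (tab12.getD ρ (0, 0, 0, 0)).1 (tab12.getD ρ (0, 0, 0, 0)).2.1 (tab12.getD ρ (0, 0, 0, 0)).2.2.1
    (tab12.getD ρ (0, 0, 0, 0)).2.2.2 = true := by decide +kernel

theorem rest12 : ∀ ρ < 33, RepS 12 ({2, 5, 6, 7, 8, 11} : Finset ℕ) (tab12.getD ρ (0, 0, 0, 0)).2.2.2 := by
  have h : ∀ ρ < 33, (tab12.getD ρ (0, 0, 0, 0)).2.2.2 ≤ 2 := by decide +kernel
  intro ρ hρ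
  exact RepS.ones (le_trans (h ρ hρ) (by decide))

theorem large12 (n : ℕ) (hn : 356931 ≤ n) : RepS 12 (Finset.Icc 1 12) n := by
  have hρ : n % 33 < 33 := Nat.mod_lt _ (by norm_num)
  obtain ⟨a, b, c, T, ha, hb, hc, hT⟩ := row_spec (by norm_num) (rows12 _ hρ) n hn rfl
  have p₁ : PairData 12 33 1 12 1 2 33 3 := by constructor <;> norm_num
  have p₂ : PairData 12 33 3 10 13 20 4290 33 := by constructor <;> norm_num
  have p₃ : PairData 12 33 4 9 14 19 4389 33 := by constructor <;> norm_num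
  have := tri_rep p₁ p₂ p₃ (L := ({2, 5, 6, 7, 8, 11} : Finset ℕ)) (by decide) (by decide) (by decide) (rest12 _ hρ)
    a b c T ha hb hc
  rw [← hT] at this
  exact this.mono (by decide)

theorem small12 (n : ℕ) (hn : n < 356931) : RepS 12 (Finset.Icc 1 12) n := by
  by_cases h : n < 18
  · exact rep_of_check 12 18 [(1, 2), (2, 2), (3, 2), (4, 2), (5, 2), (6, 1), (7, 1), (8, 1), (9, 1), (10, 1), (11, 1), (12, 1)]
      (Finset.Icc 1 12) 0 18 (by decide) (by decide) (by decide +kernel) n (Nat.zero_le _) h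
  · have h1 : ∀ r, 13 ≤ r → r < 4000 → RepS 12 (Finset.Icc 1 11) r := fun r hr1 hr2 =>
      rep_of_check 12 4000 [(1, 27), (2, 26), (3, 25), (4, 24), (5, 23), (6, 22), (7, 22), (8, 21), (9, 20), (10, 20), (11, 19)]
        (Finset.Icc 1 11) 13 4000 (by decide) (by decide) (by decide +kernel) r hr1 hr2
    have h2 := extend (m := 12) (i := 12) (T := Finset.Icc 1 11) (by decide) 13 4000 h1 182
      (by norm_num) n (by omega) (by norm_num [polygonal]; omega)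
    exact h2.mono (by decide)

theorem case12 (n : ℕ) : RepS 12 (Finset.Icc 1 12) n := by
  rcases lt_or_ge n 356931 with h | h
  · exact small12 n h
  · exact large12 n h

/-- Rows for `m = 13`. -/
def tab13 : List (ℕ × ℕ × ℕ × ℕ) :=
  [(2, 0, 3, 0), (2, 0, 3, 1), (2, 0, 3, 2), (0, 0, 0, 0), (0, 0, 0, 1), (0, 0, 0, 2), (1, 0, 0, 0), (1, 0, 0, 1), (1, 0, 0, 2), (2, 0, 0, 0), (2, 0, 0, 1), (2, 0, 0, 2), (0, 0, 1, 0), (0, 0, 1, 1), (0, 0, 1, 2), (1, 0, 1, 0), (1, 0, 1, 1), (1, 0, 1, 2), (2, 0, 1, 0), (2, 0, 1, 1), (2, 0, 1, 2), (0, 0, 2, 0), (0, 0, 2, 1), (0, 0, 2, 2), (1, 0, 2, 0), (1, 0, 2, 1), (1, 0, 2, 2), (2, 0, 2, 0), (2, 0, 2, 1), (2, 0, 2, 2), (0, 0, 3, 0), (0, 0, 3, 1), (0, 0, 3, 2), (1, 0, 3, 0), (1, 0, 3, 1), (1, 0, 3, 2)]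

theorem rows13 : ∀ ρ < 36, rowOK 36 2 36 3 11 1386 18 5 360 9 12 2 4 6 659847 ρ
    (tab13.getD ρ (0, 0, 0, 0)).1 (tab13.getD ρ (0, 0, 0, 0)).2.1 (tab13.getD ρ (0, 0, 0, 0)).2.2.1
    (tab13.getD ρ (0, 0, 0, 0)).2.2.2 = true := by decide +kernel

theorem rest13 : ∀ ρ < 36, RepS 13 ({2, 4, 6, 7, 8, 10, 12} : Finset ℕ) (tab13.getD ρ (0, 0, 0, 0)).2.2.2 := by
  have h : ∀ ρ < 36, (tab13.getD ρ (0, 0, 0, 0)).2.2.2 ≤ 2 := by decide +kernel
  intro ρ hρ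
  exact RepS.ones (le_trans (h ρ hρ) (by decide))

theorem large13 (n : ℕ) (hn : 659847 ≤ n) : RepS 13 (Finset.Icc 1 13) n := by
  have hρ : n % 36 < 36 := Nat.mod_lt _ (by norm_num)
  obtain ⟨a, b, c, T, ha, hb, hc, hT⟩ := row_spec (by norm_num) (rows13 _ hρ) n hn rfl
  have p₁ : PairData 13 36 1 13 1 2 36 3 := by constructor <;> norm_num
  have p₂ : PairData 13 36 3 11 7 11 1386 18 := by constructor <;> norm_num
  have p₃ : PairData 13 36 5 9 4 5 360 9 := by constructor <;> norm_num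
  have := tri_rep p₁ p₂ p₃ (L := ({2, 4, 6, 7, 8, 10, 12} : Finset ℕ)) (by decide) (by decide) (by decide) (rest13 _ hρ)
    a b c T ha hb hc
  rw [← hT] at this
  exact this.mono (by decide)

theorem small13 (n : ℕ) (hn : n < 659847) : RepS 13 (Finset.Icc 1 13) n := by
  by_cases h : n < 19
  · exact rep_of_check 13 19 [(1, 2), (2, 2), (3, 2), (4, 2), (5, 2), (6, 1), (7, 1), (8, 1), (9, 1), (10, 1), (11, 1), (12, 1), (13, 1)]
      (Finset.Icc 1 13) 0 19 (by decide) (by decide) (by decide +kernel) n (Nat.zero_le _) h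
  · have h1 : ∀ r, 14 ≤ r → r < 6000 → RepS 13 (Finset.Icc 1 12) r := fun r hr1 hr2 =>
      rep_of_check 13 6000 [(1, 32), (2, 30), (3, 29), (4, 28), (5, 27), (6, 27), (7, 26), (8, 25), (9, 24), (10, 24), (11, 23), (12, 23)]
        (Finset.Icc 1 12) 14 6000 (by decide) (by decide) (by decide +kernel) r hr1 hr2
    have h2 := extend (m := 13) (i := 13) (T := Finset.Icc 1 12) (by decide) 14 6000 h1 250
      (by norm_num) n (by omega) (by norm_num [polygonal]; omega)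
    exact h2.mono (by decide)

theorem case13 (n : ℕ) : RepS 13 (Finset.Icc 1 13) n := by
  rcases lt_or_ge n 659847 with h | h
  · exact small13 n h
  · exact large13 n h

/-- Rows for `m = 14`. -/
def tab14 : List (ℕ × ℕ × ℕ × ℕ) :=
  [(12, 0, 0, 0), (12, 0, 0, 1), (12, 0, 0, 2), (0, 0, 0, 0), (0, 0, 0, 1), (0, 0, 0, 2), (1, 0, 0, 0), (1, 0, 0, 1), (1, 0, 0, 2), (2, 0, 0, 0), (2, 0, 0, 1), (2, 0, 0, 2), (3, 0, 0, 0), (3, 0, 0, 1), (3, 0, 0, 2), (4, 0, 0, 0), (4, 0, 0, 1), (4, 0, 0, 2), (5, 0, 0, 0), (5, 0, 0, 1), (5, 0, 0, 2), (6, 0, 0, 0), (6, 0, 0, 1), (6, 0, 0, 2), (7, 0, 0, 0), (7, 0, 0, 1), (7, 0, 0, 2), (8, 0, 0, 0), (8, 0, 0, 1), (8, 0, 0, 2), (9, 0, 0, 0), (9, 0, 0, 1), (9, 0, 0, 2), (10, 0, 0, 0), (10, 0, 0, 1), (10, 0, 0, 2), (11, 0, 0, 0), (11, 0, 0, 1), (11, 0, 0, 2)]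

theorem rows14 : ∀ ρ < 39, rowOK 39 2 39 3 25 6825 39 23 7176 39 13 1 1 5 581883 ρ
    (tab14.getD ρ (0, 0, 0, 0)).1 (tab14.getD ρ (0, 0, 0, 0)).2.1 (tab14.getD ρ (0, 0, 0, 0)).2.2.1
    (tab14.getD ρ (0, 0, 0, 0)).2.2.2 = true := by decide +kernel

theorem rest14 : ∀ ρ < 39, RepS 14 ({3, 5, 6, 7, 8, 9, 10, 12} : Finset ℕ) (tab14.getD ρ (0, 0, 0, 0)).2.2.2 := by
  have h : ∀ ρ < 39, (tab14.getD ρ (0, 0, 0, 0)).2.2.2 ≤ 2 := by decide +kernel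
  intro ρ hρ
  exact RepS.ones (le_trans (h ρ hρ) (by decide))

theorem large14 (n : ℕ) (hn : 581883 ≤ n) : RepS 14 (Finset.Icc 1 14) n := by
  have hρ : n % 39 < 39 := Nat.mod_lt _ (by norm_num)
  obtain ⟨a, b, c, T, ha, hb, hc, hT⟩ := row_spec (by norm_num) (rows14 _ hρ) n hn rfl
  have p₁ : PairData 14 39 1 14 1 2 39 3 := by constructor <;> norm_num
  have p₂ : PairData 14 39 2 13 14 25 6825 39 := by constructor <;> norm_num
  have p₃ : PairData 14 39 4 11 16 23 7176 39 := by constructor <;> norm_num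
  have := tri_rep p₁ p₂ p₃ (L := ({3, 5, 6, 7, 8, 9, 10, 12} : Finset ℕ)) (by decide) (by decide) (by decide) (rest14 _ hρ)
    a b c T ha hb hc
  rw [← hT] at this
  exact this.mono (by decide)

theorem small14 (n : ℕ) (hn : n < 581883) : RepS 14 (Finset.Icc 1 14) n := by
  by_cases h : n < 20
  · exact rep_of_check 14 20 [(1, 2), (2, 2), (3, 2), (4, 2), (5, 2), (6, 1), (7, 1), (8, 1), (9, 1), (10, 1), (11, 1), (12, 1), (13, 1), (14, 1)]
      (Finset.Icc 1 14) 0 20 (by decide) (by decide) (by decide +kernel) n (Nat.zero_le _) h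
  · have h1 : ∀ r, 15 ≤ r → r < 6000 → RepS 14 (Finset.Icc 1 13) r := fun r hr1 hr2 =>
      rep_of_check 14 6000 [(1, 30), (2, 29), (3, 28), (4, 27), (5, 27), (6, 26), (7, 25), (8, 24), (9, 24), (10, 23), (11, 23), (12, 22), (13, 22)]
        (Finset.Icc 1 13) 15 6000 (by decide) (by decide) (by decide +kernel) r hr1 hr2
    have h2 := extend (m := 14) (i := 14) (T := Finset.Icc 1 13) (by decide) 15 6000 h1 231
      (by norm_num) n (by omega) (by norm_num [polygonal]; omega)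
    exact h2.mono (by decide)

theorem case14 (n : ℕ) : RepS 14 (Finset.Icc 1 14) n := by
  rcases lt_or_ge n 581883 with h | h
  · exact small14 n h
  · exact large14 n h

end Pool.H21.TS
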