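import Mathlib
import Pool.Agent.H21.TS.Small
import Pool.Agent.H21.TS.FiveEnd

/-! All `m ≥ 5`. -/

namespace Pool.H21.TS

theorem all_ge_five (m : ℕ) (hm : 5 ≤ m) (n : ℕ) : RepS m (Finset.Icc 1 m) n := by
  by_cases h : 15 ≤ m
  · exact large m h n
  · have : m = 5 ∨ m = 6 ∨ m = 7 ∨ m = 8 ∨ m = 9 ∨ m = 10 ∨ m = 11 ∨ m = 12 ∨ m = 13 ∨ m = 14 := by
      omega
    rcases this with rfl | rfl | rfl | rfl | rfl | rfl | rfl | rfl | rfl | rfl
    · exact case5 n
    · exact case6 n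
    · exact case7 n
    · exact case8 n
    · exact case9 n
    · exact case10 n
    · exact case11 n
    · exact case12 n
    · exact case13 n
    · exact case14 n

theorem RepS.fin {m n : ℕ} (h : RepS m (Finset.Icc 1 m) n) :
    ∃ x : Fin m → ℕ, n = ∑ i : Fin m, polygonal (m + 1 + (i : ℕ)) (x i) := by
  obtain ⟨x, hx⟩ := h
  refine ⟨fun i => x (i + 1), ?_⟩
  rw [Fin.sum_univ_eq_sum_range (fun i => polygonal (m + 1 + i) (x (i + 1))) m, hx]
  have h1 : Finset.Icc 1 m = Finset.Ico 1 (m + 1) := by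
    ext k; simp
  rw [h1, Finset.sum_Ico_eq_sum_range]
  apply Finset.sum_congr (by simp)
  intro i _
  rw [add_comm 1 i]
  congr 1
  ring

end Pool.H21.TS
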